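import Pool.Agent.U693.FF.Comp
import Pool.Agent.N874.PM.Big3
import Pool.Agent.N603.PM.UR
import Pool.Agent.N169.PM.SPD

/-!
# The given field is in the class
-/

set_option autoImplicit false
set_option linter.all false

open Polynomial IsDedekindDomain
open scoped Classical IntermediateField

namespace Pool.Agent.U693.FF

open Pool.Agent.N874.PM (Gen SplitMod ov_val poly_approx)
open Pool.Agent.N874.PP (Ov)

theorem finRes_poly (k : Type) [Field k] [Finite k] : FinRes k[X] := by
  intro p hp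
  obtain ⟨g, hg⟩ := (inferInstance : p.IsPrincipal)
  have hg' : p = Ideal.span {g} := hg
  have hg0 : g ≠ 0 := by
    rintro rfl
    apply hp
    rw [hg', Ideal.span_singleton_eq_bot]
  have hu : IsUnit (C g.leadingCoeff⁻¹ : k[X]) :=
    isUnit_C.2 (IsUnit.mk0 _ (inv_ne_zero (leadingCoeff_ne_zero.2 hg0)))
  have hsp : Ideal.span {g} = Ideal.span {g * C g.leadingCoeff⁻¹} :=
    Ideal.span_singleton_eq_span_singleton.2 ⟨hu.unit, rfl⟩
  rw [hg', hsp]
  have hmm : (g * C g.leadingCoeff⁻¹).Monic := monic_mul_leadingCoeff_inv hg0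
  have : Module.Finite k (AdjoinRoot (g * C g.leadingCoeff⁻¹)) := hmm.finite_adjoinRoot
  exact Module.finite_of_finite k (M := AdjoinRoot (g * C g.leadingCoeff⁻¹))

section base

variable {k K M : Type} [Field k] [Finite k] [Field K] [Algebra k[X] K] [IsFractionRing k[X] K]
  [Field M] [Algebra K M] [Algebra k[X] M] [IsScalarTower k[X] K M] [FiniteDimensional K M]
  [IsGalois K M]

theorem one_mem_of {w : HeightOneSpectrum (integralClosure k[X] M)} {P δ : k[X]}
    (h : IsCoprime P δ) (h1 : Ov P w) (h2 : Ov δ w) : False := by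
  obtain ⟨u, v, huv⟩ := h
  apply w.isPrime.ne_top
  rw [Ideal.eq_top_iff_one, ← map_one (algebraMap k[X] (integralClosure k[X] M)), ← huv, map_add,
    map_mul, map_mul]
  exact Ideal.add_mem _ (Ideal.mul_mem_left _ _ h1) (Ideal.mul_mem_left _ _ h2)

/-- The field `K(γ)` is in the class. -/
theorem base_class {n : ℕ} (hn : Module.finrank K M = 2 ^ n) {γ : M} {g : k[X][X]} {δ : k[X]}
    (hG : Gen K γ g δ) {S T : Finset k[X]} {good : k[X] → Prop}
    (hgd : ∀ P P' : k[X], Associated P P' → good P → good P')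
    (hS : ∀ Q ∈ S, Q.Monic ∧ Irreducible Q) (hdis : Disjoint S T)
    (hδ : ∀ P : k[X], P.Monic → Irreducible P → P ∣ δ → P ∈ T) (hsp : ∀ Q ∈ S, SplitMod Q g)
    (hT : ∀ P ∈ T, good P) : Cls k[X] K S good M := by
  haveI : IsFractionRing (integralClosure k[X] M) M :=
    integralClosure.isFractionRing_of_finite_extension K M
  haveI : IsDedekindDomain (integralClosure k[X] M) := integralClosure.isDedekindDomain k[X] K M
  haveI : IsIntegralClosure k[X] k[X] K := inferInstance
  have key : ∀ (w : HeightOneSpectrum (integralClosure k[X] M)) (P : k[X]), Irreducible P →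
      Ov P w → ¬ P ∣ δ → ¬ Ov δ w := by
    intro w P hP hw hnd hδw
    exact one_mem_of ((hP.coprime_iff_not_dvd).2 hnd) hw hδw
  have hur := fun (w : HeightOneSpectrum (integralClosure k[X] M)) (h : ¬ Ov δ w) =>
    (Pool.Agent.N603.PM.UR.ur k K M k[X] (integralClosure k[X] M) γ g δ hG).1 w h
  have hval : ∀ (w : HeightOneSpectrum (integralClosure k[X] M)) (P : k[X]), Irreducible P →
      Ov P w → ¬ Ov δ w → w.valuation M (algebraMap k[X] M P) = WithZero.exp (-1 : ℤ) := by
    intro w P hP hw hδw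
    obtain ⟨v, hv⟩ := hur w hδw
    have h3 : w.valuation M (algebraMap k[X] M P) = v.valuation K (algebraMap k[X] K P) := by
      rw [← hv, ← IsScalarTower.algebraMap_apply]
    have h4 := (ov_val (L := M) P w).1 hw
    rw [h3]
    rw [h3] at h4
    rw [HeightOneSpectrum.valuation_lt_one_iff_mem] at h4
    apply val_pr v hP.ne_zero
    have h5 : Ideal.span {P} ≤ v.asIdeal := by
      rw [Ideal.span_le, Set.singleton_subset_iff]
      exact h4
    exact ((PrincipalIdealRing.isMaximal_of_irreducible hP).eq_of_le v.isPrime.ne_top h5).symm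
  refine ⟨inferInstance, inferInstance, ⟨n, hn⟩, fun Q hQ 𝔭 h𝔭 hQ𝔭 => ?_, fun P hP hex => ?_⟩
  · obtain ⟨w, rfl⟩ := hos (K := K) h𝔭 (hS Q hQ).2.ne_zero hQ𝔭
    have hw : Ov Q w := hQ𝔭
    have hδw : ¬ Ov δ w := key w Q (hS Q hQ).2 hw fun hd =>
      Finset.disjoint_left.1 hdis hQ (hδ Q (hS Q hQ).1 (hS Q hQ).2 hd)
    refine ⟨not_mem_sq w (hval w Q (hS Q hQ).2 hw hδw), fun x => ?_⟩
    by_cases hx : x = 0
    · refine ⟨0, ?_⟩
      rw [hx, map_zero, sub_zero]
      exact zero_mem _
    obtain ⟨v, hv⟩ := hur w hδw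
    have hx' : (x : M) ≠ 0 := fun h => hx (Subtype.ext h)
    obtain ⟨s₀, hs₀⟩ := Pool.Agent.N169.PM.spd k K M (integralClosure k[X] M) γ g δ hG Q
      (hS Q hQ).2 (hsp Q hQ) w hw hδw (x : M) hx'
    have hx1 : w.valuation M (x : M) ≤ 1 := w.valuation_le_one x
    have hs1 : v.valuation K s₀ ≤ 1 := by
      rw [← hv]
      have e : algebraMap K M s₀ = (x : M) - ((x : M) - algebraMap K M s₀) := by ring
      rw [e]
      exact (Valuation.map_sub _ _ _).trans (max_le hx1 (hs₀.le.trans hx1))
    obtain ⟨z₁, hz₁⟩ := poly_approx v hs1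
    refine ⟨z₁, ?_⟩
    rw [← HeightOneSpectrum.valuation_lt_one_iff_mem (K := M)]
    change w.valuation M (algebraMap (integralClosure k[X] M) M
      (x - algebraMap k[X] (integralClosure k[X] M) z₁)) < 1
    have e : algebraMap (integralClosure k[X] M) M
        (x - algebraMap k[X] (integralClosure k[X] M) z₁) = ((x : M) - algebraMap K M s₀) +
        algebraMap K M (s₀ - algebraMap k[X] K z₁) := by
      rw [map_sub, map_sub, ← IsScalarTower.algebraMap_apply, ← IsScalarTower.algebraMap_apply]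
      change (x : M) - _ = _
      ring
    rw [e]
    refine lt_of_le_of_lt (Valuation.map_add _ _ _) (max_lt (lt_of_lt_of_le hs₀ hx1) ?_)
    rw [hv]
    exact hz₁
  · obtain ⟨𝔭, h𝔭, hP2⟩ := hex
    obtain ⟨w, rfl⟩ := hos (K := K) h𝔭 hP.ne_zero (Ideal.pow_le_self two_ne_zero hP2)
    have hw : Ov P w := Ideal.pow_le_self two_ne_zero hP2
    by_cases hd : P ∣ δ
    · have ha : Associated P (normalize P) := (normalize_associated P).symm
      refine hgd _ _ ha.symm (hT _ (hδ _ (monic_normalize hP.ne_zero) (ha.irreducible hP)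
        (ha.symm.dvd.trans hd)))
    · exact absurd hP2 (not_mem_sq w (hval w P hP hw (key w P hP hw hd)))

end base

end Pool.Agent.U693.FF
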