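import Mathlib

/-!
# Many quadratic extensions: the pigeonhole principle
-/

set_option autoImplicit false
set_option linter.all false

open Polynomial
open scoped Classical

namespace Pool.Agent.U693.FF

/-- `P` is a square modulo `Q` -/
def Sqm {k : Type} [Field k] (Q P : k[X]) : Prop := ∃ c : k[X], Q ∣ c ^ 2 - P

section

variable {k : Type} [Field k] [Finite k]

theorem sqm_iff (Q P : k[X]) : Sqm Q P ↔ IsSquare (Ideal.Quotient.mk (Ideal.span {Q}) P) := by
  constructor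
  · rintro ⟨c, hc⟩
    refine ⟨Ideal.Quotient.mk _ c, ?_⟩
    rw [← map_mul, ← pow_two, eq_comm, Ideal.Quotient.eq, Ideal.mem_span_singleton]
    exact hc
  · rintro ⟨c, hc⟩
    obtain ⟨c, rfl⟩ := Ideal.Quotient.mk_surjective c
    refine ⟨c, ?_⟩
    rw [← map_mul, ← pow_two, eq_comm, Ideal.Quotient.eq, Ideal.mem_span_singleton] at hc
    exact hc

theorem fin_q {Q : k[X]} (hQ : Q.Monic) : Finite (k[X] ⧸ Ideal.span {Q}) := by
  have : Module.Finite k (AdjoinRoot Q) := hQ.finite_adjoinRoot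
  exact Module.finite_of_finite k (M := AdjoinRoot Q)

/-- products of two polynomials of the same type -/
theorem sqm_mul (h2 : (2 : k) ≠ 0) {Q P P' : k[X]} (hQ : Q.Monic) (hQi : Irreducible Q)
    (hP : ¬ Q ∣ P) (hP' : ¬ Q ∣ P') (h : Sqm Q P ↔ Sqm Q P') : Sqm Q (P * P') := by
  haveI : (Ideal.span {Q}).IsMaximal := PrincipalIdealRing.isMaximal_of_irreducible hQi
  letI : Field (k[X] ⧸ Ideal.span {Q}) := Ideal.Quotient.field _
  haveI : Finite (k[X] ⧸ Ideal.span {Q}) := fin_q hQ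
  haveI : Fintype (k[X] ⧸ Ideal.span {Q}) := Fintype.ofFinite _
  have hz : ∀ {R : k[X]}, ¬ Q ∣ R → Ideal.Quotient.mk (Ideal.span {Q}) R ≠ 0 := by
    intro R hR h0
    rw [Ideal.Quotient.eq_zero_iff_mem, Ideal.mem_span_singleton] at h0
    exact hR h0
  rw [sqm_iff, sqm_iff] at h
  rw [sqm_iff, map_mul]
  by_cases hs : IsSquare (Ideal.Quotient.mk (Ideal.span {Q}) P)
  · exact hs.mul (h.1 hs)
  · have hs' : ¬ IsSquare (Ideal.Quotient.mk (Ideal.span {Q}) P') := fun h' => hs (h.2 h')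
    rw [← quadraticChar_one_iff_isSquare (mul_ne_zero (hz hP) (hz hP')), map_mul,
      quadraticChar_neg_one_iff_not_isSquare.2 hs, quadraticChar_neg_one_iff_not_isSquare.2 hs']
    norm_num

/-- Many polynomials of the same type. -/
theorem many (h2 : (2 : k) ≠ 0) (S : Finset k[X]) (hS : ∀ Q ∈ S, Q.Monic ∧ Irreducible Q)
    {Z : Set k[X]} (hZ : ∀ P ∈ Z, P.Monic ∧ Irreducible P) (hinf : Z.Infinite) :
    ∃ Y ⊆ Z, Y.Infinite ∧ ∀ A : Finset k[X], (A : Set k[X]) ⊆ Y → Even A.card → ∀ Q ∈ S,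
      ¬ Q ∣ ∏ P ∈ A, P ∧ Sqm Q (∏ P ∈ A, P) := by
  have hinf' : (Z \ (S : Set k[X])).Infinite := hinf.diff S.finite_toSet
  haveI : Infinite ↥(Z \ (S : Set k[X])) := hinf'.to_subtype
  let φ : ↥(Z \ (S : Set k[X])) → (S → Prop) := fun P Q => Sqm (Q : k[X]) (P : k[X])
  obtain ⟨y, hy⟩ := Finite.exists_infinite_fiber φ
  refine ⟨Subtype.val '' (φ ⁻¹' {y}), ?_, ?_, ?_⟩
  · rintro _ ⟨P, -, rfl⟩
    exact P.2.1
  · exact Set.Infinite.image Subtype.val_injective.injOn (Set.infinite_coe_iff.1 hy)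
  intro A hA hev Q hQ
  have hmem : ∀ P ∈ A, (P.Monic ∧ Irreducible P) ∧ P ∉ S ∧ (Sqm Q P ↔ y ⟨Q, hQ⟩) := by
    intro P hP
    obtain ⟨P', hP', rfl⟩ := hA hP
    refine ⟨hZ _ P'.2.1, P'.2.2, ?_⟩
    have h1 : φ P' = y := hP'
    have h2 : φ P' ⟨Q, hQ⟩ = y ⟨Q, hQ⟩ := by rw [h1]
    exact iff_of_eq h2
  have hnd : ∀ P ∈ A, ¬ Q ∣ P := by
    intro P hP hd
    obtain ⟨⟨a1, a2⟩, a3, -⟩ := hmem P hP
    apply a3
    have : P = Q := eq_of_monic_of_associated a1 (hS Q hQ).1
      ((hS Q hQ).2.associated_of_dvd a2 hd).symm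
    rw [this]
    exact hQ
  -- the type of a product
  have key : ∀ B : Finset k[X], B ⊆ A → ¬ Q ∣ ∏ P ∈ B, P ∧
      (Sqm Q (∏ P ∈ B, P) ↔ (Even B.card ∨ y ⟨Q, hQ⟩)) := by
    intro B
    induction B using Finset.induction_on with
    | empty =>
      intro _
      refine ⟨?_, ?_⟩
      · rw [Finset.prod_empty]
        exact (hS Q hQ).2.not_dvd_one
      · rw [Finset.prod_empty, Finset.card_empty]
        refine ⟨fun _ => Or.inl (by simp), fun _ => ⟨1, ?_⟩⟩
        simp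
    | insert P B hPB ih =>
      intro hsub
      obtain ⟨b1, b2⟩ := ih ((Finset.subset_insert _ _).trans hsub)
      have hPA : P ∈ A := hsub (Finset.mem_insert_self _ _)
      have hP1 := hnd P hPA
      have hP2 := (hmem P hPA).2.2
      rw [Finset.prod_insert hPB, Finset.card_insert_of_notMem hPB]
      refine ⟨fun hd => ((hS Q hQ).2.prime.dvd_or_dvd hd).elim hP1 b1, ?_⟩
      haveI : (Ideal.span {Q}).IsMaximal := PrincipalIdealRing.isMaximal_of_irreducible (hS Q hQ).2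
      letI : Field (k[X] ⧸ Ideal.span {Q}) := Ideal.Quotient.field _
      haveI : Finite (k[X] ⧸ Ideal.span {Q}) := fin_q (hS Q hQ).1
      haveI : Fintype (k[X] ⧸ Ideal.span {Q}) := Fintype.ofFinite _
      have hz : ∀ {R : k[X]}, ¬ Q ∣ R → Ideal.Quotient.mk (Ideal.span {Q}) R ≠ 0 := by
        intro R hR h0
        rw [Ideal.Quotient.eq_zero_iff_mem, Ideal.mem_span_singleton] at h0
        exact hR h0
      rw [Nat.even_add_one]
      by_cases hyQ : y ⟨Q, hQ⟩
      · have e1 : Sqm Q P := hP2.2 hyQ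
        have e2 : Sqm Q (∏ P ∈ B, P) := b2.2 (Or.inr hyQ)
        exact ⟨fun _ => Or.inr hyQ, fun _ => sqm_mul h2 (hS Q hQ).1 (hS Q hQ).2 hP1 b1
          ⟨fun _ => e2, fun _ => e1⟩⟩
      · have e1 : ¬ Sqm Q P := fun h => hyQ (hP2.1 h)
        by_cases hB : Even B.card
        · have e2 : Sqm Q (∏ P ∈ B, P) := b2.2 (Or.inl hB)
          refine ⟨fun h => ?_, fun h => ?_⟩
          · exfalso
            rw [sqm_iff, map_mul] at h
            rw [sqm_iff] at e1 e2
            rw [← quadraticChar_one_iff_isSquare (mul_ne_zero (hz hP1) (hz b1)), map_mul,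
              quadraticChar_neg_one_iff_not_isSquare.2 e1,
              (quadraticChar_one_iff_isSquare (hz b1)).2 e2] at h
            norm_num at h
          · rcases h with h | h
            · exact absurd hB h
            · exact absurd h hyQ
        · have e2 : ¬ Sqm Q (∏ P ∈ B, P) := fun h => (b2.1 h).elim hB hyQ
          exact ⟨fun _ => Or.inl hB, fun _ => sqm_mul h2 (hS Q hQ).1 (hS Q hQ).2 hP1 b1
            ⟨fun h => absurd h e1, fun h => absurd h e2⟩⟩
  obtain ⟨c1, c2⟩ := key A subset_rfl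
  exact ⟨c1, c2.2 (Or.inl hev)⟩

end

end Pool.Agent.U693.FF
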