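import Pool.Agent.U693.FF.Comp

/-!
# Quadratic extensions in the class
-/

set_option autoImplicit false
set_option linter.all false

open Polynomial IsDedekindDomain
open scoped Classical IntermediateField Pointwise

namespace Pool.Agent.U693.FF

/-- `M` is generated by `r` over `K`. -/
def Gby (K : Type) {M : Type} [Field K] [Field M] [Algebra K M] (r : M) : Prop :=
  ∀ T : Subfield M, (∀ x : K, algebraMap K M x ∈ T) → r ∈ T → T = ⊤

section quad

variable {A K M : Type} [CommRing A] [IsDomain A] [IsPrincipalIdealRing A] [Field K] [Algebra A K]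
  [IsFractionRing A K] [Field M] [Algebra K M] [Algebra A M] [IsScalarTower A K M] {D : A} {r : M}

theorem quad_eq_one (hgen : Gby K r) (σ : Gal(M/K)) (h : σ r = r) : σ = 1 := by
  have h3 := hgen (RingHom.eqLocusField (σ : M ≃+* M).toRingHom (RingHom.id M))
    (fun x => σ.commutes x) h
  ext z
  have h4 : z ∈ RingHom.eqLocusField (σ : M ≃+* M).toRingHom (RingHom.id M) := by
    rw [h3]
    trivial
  exact h4

theorem quad_pm (hr : r ^ 2 = algebraMap A M D) (σ : Gal(M/K)) : σ r = r ∨ σ r = - r := by
  have h1 : (σ r) ^ 2 = r ^ 2 := by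
    rw [← map_pow, hr, IsScalarTower.algebraMap_apply A K M, σ.commutes]
  exact sq_eq_sq_iff_eq_or_eq_neg.1 h1

theorem quad_adj (hgen : Gby K r) : K⟮r⟯ = ⊤ := by
  rw [eq_top_iff]
  intro x _
  have h3 := hgen (K⟮r⟯).toSubfield (fun x => K⟮r⟯.algebraMap_mem x)
    (IntermediateField.mem_adjoin_simple_self K r)
  have h4 : x ∈ (K⟮r⟯).toSubfield := by
    rw [h3]
    trivial
  exact h4

theorem quad_fin (hr : r ^ 2 = algebraMap A M D) (hgen : Gby K r) : FiniteDimensional K M := by
  have h1 : IsIntegral K r := by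
    refine ⟨X ^ 2 - C (algebraMap A K D), by monicity!, ?_⟩
    simp only [eval₂_sub, eval₂_pow, eval₂_X, eval₂_C]
    rw [hr, ← IsScalarTower.algebraMap_apply, sub_self]
  have h2 : FiniteDimensional K K⟮r⟯ := IntermediateField.adjoin.finiteDimensional h1
  rw [quad_adj hgen] at h2
  haveI := h2
  exact LinearEquiv.finiteDimensional (IntermediateField.topEquiv (F := K) (E := M)).toLinearEquiv

theorem quad_gal (h2 : (2 : M) ≠ 0) (hD : D ≠ 0) (hr : r ^ 2 = algebraMap A M D)
    (hgen : Gby K r) : IsGalois K M := by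
  haveI := quad_fin hr hgen
  have hDM : algebraMap A M D ≠ 0 := by
    rw [IsScalarTower.algebraMap_apply A K M]
    exact (_root_.map_ne_zero _).2 ((map_ne_zero_iff _ (IsFractionRing.injective A K)).2 hD)
  have hr0 : r ≠ 0 := by
    rintro rfl
    apply hDM
    rw [← hr]
    simp
  have hf : (X ^ 2 - C (algebraMap A K D) : K[X]).map (algebraMap K M) =
      (X - C r) * (X - C (-r)) := by
    rw [Polynomial.map_sub, Polynomial.map_pow, map_X, map_C, ← IsScalarTower.algebraMap_apply,
      ← hr]
    simp only [map_neg, map_pow]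
    ring
  have hsep : (X ^ 2 - C (algebraMap A K D) : K[X]).Separable := by
    rw [← Polynomial.separable_map (algebraMap K M), hf]
    refine (separable_X_sub_C).mul (separable_X_sub_C) ?_
    apply isCoprime_X_sub_C_of_isUnit_sub
    have : r - -r = 2 * r := by ring
    rw [this]
    exact (mul_ne_zero h2 hr0).isUnit
  have hspl : (X ^ 2 - C (algebraMap A K D) : K[X]).IsSplittingField K M := by
    refine ⟨?_, ?_⟩
    · rw [hf]
      exact (Splits.X_sub_C r).mul (Splits.X_sub_C (-r))
    · have h0 : (X ^ 2 - C (algebraMap A K D) : K[X]) ≠ 0 := hsep.ne_zero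
      have h1 : r ∈ (X ^ 2 - C (algebraMap A K D) : K[X]).rootSet M := by
        rw [mem_rootSet]
        refine ⟨h0, ?_⟩
        rw [map_sub, map_pow, aeval_X, aeval_C, ← IsScalarTower.algebraMap_apply, hr, sub_self]
      have h2 : ∀ x : M, x ∈ IntermediateField.adjoin K
          ((X ^ 2 - C (algebraMap A K D) : K[X]).rootSet M) := by
        intro x
        have h3 := hgen (IntermediateField.adjoin K
          ((X ^ 2 - C (algebraMap A K D) : K[X]).rootSet M)).toSubfield
          (fun x => IntermediateField.algebraMap_mem _ x) (IntermediateField.subset_adjoin K _ h1)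
        have h4 : x ∈ (IntermediateField.adjoin K
            ((X ^ 2 - C (algebraMap A K D) : K[X]).rootSet M)).toSubfield := by
          rw [h3]
          trivial
        exact h4
      have h5 := IntermediateField.adjoin_toSubalgebra_of_isAlgebraic (F := K)
        (S := (X ^ 2 - C (algebraMap A K D) : K[X]).rootSet M)
        (fun x _ => Algebra.IsAlgebraic.isAlgebraic x)
      rw [← h5, eq_top_iff]
      intro x _
      exact h2 x
  exact IsGalois.of_separable_splitting_field hsep

theorem quad_deg [FiniteDimensional K M] [IsGalois K M] (hr : r ^ 2 = algebraMap A M D)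
    (hgen : Gby K r) : ∃ n : ℕ, Module.finrank K M = 2 ^ n := by
  have h1 : IsPGroup 2 Gal(M/K) := by
    intro σ
    refine ⟨1, ?_⟩
    apply quad_eq_one hgen
    rw [pow_one, pow_two]
    change σ (σ r) = r
    rcases quad_pm hr σ with h | h
    · rw [h, h]
    · rw [h, map_neg, h, neg_neg]
  haveI : Fact (Nat.Prime 2) := ⟨Nat.prime_two⟩
  obtain ⟨n, hn⟩ := IsPGroup.iff_card.1 h1
  exact ⟨n, by rw [← IsGalois.card_aut_eq_finrank, hn]⟩

theorem r_int (hr : r ^ 2 = algebraMap A M D) : IsIntegral A r := by
  refine ⟨X ^ 2 - C D, by monicity!, ?_⟩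
  simp only [eval₂_sub, eval₂_pow, eval₂_X, eval₂_C]
  rw [hr, sub_self]

theorem coprime_mem {w : HeightOneSpectrum (integralClosure A M)} {P δ : A}
    (h : IsCoprime P δ) (h1 : algebraMap A (integralClosure A M) P ∈ w.asIdeal)
    (h2 : algebraMap A (integralClosure A M) δ ∈ w.asIdeal) : False := by
  obtain ⟨u, v, huv⟩ := h
  apply w.isPrime.ne_top
  rw [Ideal.eq_top_iff_one, ← map_one (algebraMap A (integralClosure A M)), ← huv, map_add,
    map_mul, map_mul]
  exact Ideal.add_mem _ (Ideal.mul_mem_left _ _ h1) (Ideal.mul_mem_left _ _ h2)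

/-- If `σ ρ = -ρ`, then `ρ` and `σ ρ` are different modulo primes not dividing `2 D`. -/
theorem quad_ne (h2 : IsUnit (2 : A))
    (hr : r ^ 2 = algebraMap A M D) {P : A} (hP : Irreducible P) (hPD : ¬ P ∣ D)
    (w : HeightOneSpectrum (integralClosure A M))
    (hw : algebraMap A (integralClosure A M) P ∈ w.asIdeal)
    (hm : - (2 * (⟨r, r_int hr⟩ : integralClosure A M)) ∈ w.asIdeal) : False := by
  set ρ : integralClosure A M := ⟨r, r_int hr⟩ with hρ
  have h3 : ρ ^ 2 = algebraMap A (integralClosure A M) D := by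
    apply Subtype.ext
    exact hr
  have a5 : algebraMap A (integralClosure A M) (2 * 2 * D) ∈ w.asIdeal := by
    have e2 : algebraMap A (integralClosure A M) (2 * 2 * D) = - (2 * ρ) * (- (2 * ρ)) := by
      rw [map_mul, map_mul, ← h3, map_ofNat]
      ring
    rw [e2]
    exact Ideal.mul_mem_left _ _ hm
  have a6 : ¬ P ∣ 2 * 2 * D := by
    intro h7
    rcases hP.prime.dvd_or_dvd h7 with h8 | h8
    · rcases hP.prime.dvd_or_dvd h8 with h | h
      · exact hP.not_isUnit (isUnit_of_dvd_unit h h2)
      · exact hP.not_isUnit (isUnit_of_dvd_unit h h2)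
    · exact hPD h8
  exact coprime_mem ((hP.coprime_iff_not_dvd).2 a6) hw a5

theorem quad_unr [FiniteDimensional K M] [IsGalois K M] (hA : FinRes A) (h2 : IsUnit (2 : A))
    (hr : r ^ 2 = algebraMap A M D) (hgen : Gby K r) {P : A} (hP : Irreducible P) (hPD : ¬ P ∣ D)
    (w : HeightOneSpectrum (integralClosure A M))
    (hw : algebraMap A (integralClosure A M) P ∈ w.asIdeal) :
    algebraMap A (integralClosure A M) P ∉ w.asIdeal ^ 2 := by
  refine unr_of_inertia K hA w hP.prime (PrincipalIdealRing.isMaximal_of_irreducible hP) hw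
    fun σ hσ => ?_
  apply quad_eq_one hgen
  rcases quad_pm hr σ with h | h
  · exact h
  · exfalso
    set ρ : integralClosure A M := ⟨r, r_int hr⟩ with hρ
    have h1 := hσ ρ
    have h3 : σ • ρ - ρ = - (2 * ρ) := by
      have : σ • ρ = - ρ := by
        apply Subtype.ext
        exact h
      rw [this]
      ring
    rw [h3] at h1
    exact quad_ne h2 hr hP hPD w hw h1

/-- The quadratic extension `K(√D)` is in the class. -/
theorem quad_class (hA : FinRes A) (h2 : IsUnit (2 : A)) (hD : D ≠ 0)
    (hr : r ^ 2 = algebraMap A M D) (hgen : Gby K r) {S : Finset A} {good : A → Prop}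
    (hS : ∀ Q ∈ S, Irreducible Q) (hSD : ∀ Q ∈ S, ¬ Q ∣ D ∧ ∃ c : A, Q ∣ c ^ 2 - D)
    (hgood : ∀ P : A, Irreducible P → P ∣ D → good P) : Cls A K S good M := by
  have h2M : (2 : M) ≠ 0 := by
    have h3 := (h2.map (algebraMap A M)).ne_zero
    rwa [map_ofNat] at h3
  haveI := quad_fin hr hgen
  haveI hgal := quad_gal h2M hD hr hgen
  refine ⟨inferInstance, hgal, quad_deg hr hgen, fun Q hQ 𝔭 h𝔭 hQ𝔭 => ?_, fun P hP hex => ?_⟩
  · obtain ⟨w, rfl⟩ := hos (K := K) h𝔭 (hS Q hQ).ne_zero hQ𝔭
    obtain ⟨hQD, c, hc⟩ := hSD Q hQ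
    refine ⟨quad_unr hA h2 hr hgen (hS Q hQ) hQD w hQ𝔭, ?_⟩
    haveI := galgrp (A := A) (K := K) (M := M)
    haveI : Finite (integralClosure A M ⧸ w.asIdeal) := fin_quot K hA w
    obtain ⟨σ, hσ⟩ := IsArithFrobAt.exists_of_isInvariant A Gal(M/K) w.asIdeal
    have h4 : σ = 1 := by
      apply quad_eq_one hgen
      rcases quad_pm hr σ with h | h
      · exact h
      · exfalso
        set ρ : integralClosure A M := ⟨r, r_int hr⟩ with hρ
        have h3 : ρ ^ 2 = algebraMap A (integralClosure A M) D := by
          apply Subtype.ext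
          exact hr
        have hσρ : σ • ρ = - ρ := by
          apply Subtype.ext
          exact h
        -- `ρ` is congruent to an element of `A`
        obtain ⟨e, he⟩ : ∃ e : A, ρ - algebraMap A (integralClosure A M) e ∈ w.asIdeal := by
          have h5 : (ρ - algebraMap A (integralClosure A M) c) *
              (ρ + algebraMap A (integralClosure A M) c) ∈ w.asIdeal := by
            obtain ⟨k, hk⟩ := hc
            have h6 : (ρ - algebraMap A (integralClosure A M) c) *
                (ρ + algebraMap A (integralClosure A M) c) =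
                - (algebraMap A (integralClosure A M) Q * algebraMap A (integralClosure A M) k) := by
              have h7 := congrArg (algebraMap A (integralClosure A M)) hk
              rw [map_sub, map_pow, map_mul] at h7
              linear_combination h3 - h7
            rw [h6]
            exact neg_mem (Ideal.mul_mem_right _ _ hQ𝔭)
          rcases w.isPrime.mem_or_mem h5 with h6 | h6
          · exact ⟨c, h6⟩
          · exact ⟨-c, by rw [map_neg, sub_neg_eq_add]; exact h6⟩
        have a1 : σ • ρ - ρ ^ Nat.card (A ⧸ w.asIdeal.under A) ∈ w.asIdeal := hσ ρ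
        have a2 : ρ ^ Nat.card (A ⧸ w.asIdeal.under A) -
            (algebraMap A (integralClosure A M) e) ^ Nat.card (A ⧸ w.asIdeal.under A) ∈
              w.asIdeal := by
          obtain ⟨k, hk⟩ := sub_dvd_pow_sub_pow ρ (algebraMap A (integralClosure A M) e)
            (Nat.card (A ⧸ w.asIdeal.under A))
          rw [hk]
          exact Ideal.mul_mem_right _ _ he
        have a3 := fermat hA w e
        have a4 : - (2 * ρ) ∈ w.asIdeal := by
          have e1 : - (2 * ρ) = (σ • ρ - ρ ^ Nat.card (A ⧸ w.asIdeal.under A)) +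
              (ρ ^ Nat.card (A ⧸ w.asIdeal.under A) -
                (algebraMap A (integralClosure A M) e) ^ Nat.card (A ⧸ w.asIdeal.under A)) +
              ((algebraMap A (integralClosure A M) e) ^ Nat.card (A ⧸ w.asIdeal.under A) -
                algebraMap A (integralClosure A M) e) -
              (ρ - algebraMap A (integralClosure A M) e) := by
            rw [hσρ]
            ring
          rw [e1]
          exact sub_mem (add_mem (add_mem a1 a2) a3) he
        exact quad_ne h2 hr (hS Q hQ) hQD w hQ𝔭 a4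
    rw [h4] at hσ
    exact res_of_frob K hA w hσ
  · obtain ⟨𝔭, h𝔭, h5⟩ := hex
    obtain ⟨w, rfl⟩ := hos (K := K) h𝔭 hP.ne_zero (Ideal.pow_le_self two_ne_zero h5)
    apply hgood P hP
    by_contra hPD
    exact quad_unr hA h2 hr hgen hP hPD w (Ideal.pow_le_self two_ne_zero h5) h5

end quad

end Pool.Agent.U693.FF
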