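import Pool.Agent.U693.FF.Cnt
import Pool.Agent.U693.FF.Base
import Pool.Agent.U693.FF.Quad
import Pool.Agent.U693.FF.Pig
import Pool.Agent.N874.TW.Final

/-!
# A positive proportion of all odd hyperelliptic Jacobians over an infinite class of 2-extensions
-/

set_option autoImplicit false
set_option linter.all false

open Polynomial IsDedekindDomain
open Pool.Agent.N352.PJ
open Pool.Agent.N874.PM (Gen SplitMod)
open scoped Classical IntermediateField

namespace Pool.Agent.U693.FF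

/-- `f` is irreducible modulo `P`. -/
def IrrMod {k : Type} [Field k] (f : k[X][X]) (P : k[X]) : Prop :=
  Irreducible (f.map (Ideal.Quotient.mk (Ideal.span {P})))

theorem irrMod_assoc {k : Type} [Field k] {f : k[X][X]} (P P' : k[X]) (h : Associated P P')
    (h1 : IrrMod f P) : IrrMod f P' := by
  have h2 : Ideal.span {P} = Ideal.span {P'} := Ideal.span_singleton_eq_span_singleton.2 h
  have key : ∀ I J : Ideal k[X], I = J → Irreducible (f.map (Ideal.Quotient.mk I)) →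
      Irreducible (f.map (Ideal.Quotient.mk J)) := by
    rintro I _ rfl h
    exact h
  exact key _ _ h2 h1

/-- The property of `f`, in terms of the class. -/
structure Prp {k : Type} [Field k] (K : Type) [Field K] [Algebra k[X] K] (T S : Finset k[X])
    (M₀ : Type) [Field M₀] [Algebra K M₀] [Algebra k[X] M₀] (f : k[X][X]) : Prop where
  irr : Irreducible (f.map (algebraMap k[X] K))
  onT : ∀ P ∈ T, IrrMod f P
  base : Cls k[X] K S (IrrMod f) M₀
  comp : ∀ (M₁ M₂ N : Type) [Field M₁] [Algebra K M₁] [Algebra k[X] M₁] [IsScalarTower k[X] K M₁]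
    [Field M₂] [Algebra K M₂] [Algebra k[X] M₂] [IsScalarTower k[X] K M₂]
    [Field N] [Algebra K N] [Algebra k[X] N] [IsScalarTower k[X] K N] [Algebra M₁ N]
    [IsScalarTower K M₁ N] [Algebra M₂ N] [IsScalarTower K M₂ N], Gnd M₁ M₂ N →
    Cls k[X] K S (IrrMod f) M₁ → Cls k[X] K S (IrrMod f) M₂ → Cls k[X] K S (IrrMod f) N
  many : ∃ Y : Set k[X], Y.Infinite ∧ (∀ P ∈ Y, P.Monic ∧ Irreducible P) ∧
    ∀ A : Finset k[X], (A : Set k[X]) ⊆ Y → Even A.card →
    ∀ (M : Type) [Field M] [Algebra K M] [Algebra k[X] M] [IsScalarTower k[X] K M] (r : M),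
      r ^ 2 = algebraMap k[X] M (∏ P ∈ A, P) → Gby K r → Cls k[X] K S (IrrMod f) M
  zero : ∀ (M : Type) [Field M] [Algebra K M] [Algebra k[X] M] [IsScalarTower k[X] K M]
    [FiniteDimensional K M] [IsGalois K M] (R : Type) [CommRing R] [IsDedekindDomain R]
    [Algebra R M] [IsFractionRing R M] [Algebra k[X] R] [IsScalarTower k[X] R M]
    [IsIntegralClosure R k[X] M], Cls k[X] K S (IrrMod f) M →
    Pool.Agent.N874.Jac.UniquelyTwoDivisible (f.map (algebraMap k[X] M)) ∧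
      Pool.Agent.N874.Jac.ShaTwoTrivial (f.map (algebraMap k[X] M)) R

/-- The class in terms of another model of the integral closure. -/
theorem cls_down {k K M R : Type} [Field k] [Field K] [Algebra k[X] K] [IsFractionRing k[X] K]
    [Field M] [Algebra K M]
    [Algebra k[X] M] [IsScalarTower k[X] K M] [CommRing R] [IsDedekindDomain R]
    [Algebra R M] [IsFractionRing R M] [Algebra k[X] R] [IsScalarTower k[X] R M]
    [IsIntegralClosure R k[X] M] {S : Finset k[X]} {good : k[X] → Prop}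
    (h : Cls k[X] K S good M) :
    (∀ Q ∈ S, ∀ w : HeightOneSpectrum R, algebraMap k[X] R Q ∈ w.asIdeal →
      algebraMap k[X] R Q ∉ w.asIdeal ^ 2 ∧ ∀ y : R, ∃ c : k[X],
        y - algebraMap k[X] R c ∈ w.asIdeal) ∧
    ∀ P : k[X], Irreducible P → ∀ w : HeightOneSpectrum R, algebraMap k[X] R P ∈ w.asIdeal →
      algebraMap k[X] R P ∈ w.asIdeal ^ 2 → good P := by
  let e : integralClosure k[X] M ≃ₐ[k[X]] R :=
    IsIntegralClosure.equiv k[X] (integralClosure k[X] M) M R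
  have hmem : ∀ (I : Ideal R) (x : R), x ∈ I ↔ e.symm x ∈ I.comap (e : integralClosure k[X] M →+* R) := by
    intro I x
    rw [Ideal.mem_comap]
    change _ ↔ e (e.symm x) ∈ I
    rw [AlgEquiv.apply_symm_apply]
  have hsq : ∀ (w : HeightOneSpectrum R) (x : R), x ∈ w.asIdeal ^ 2 ↔
      e.symm x ∈ (w.asIdeal.comap (e : integralClosure k[X] M →+* R)) ^ 2 := by
    intro w x
    have h1 : (w.asIdeal.comap (e : integralClosure k[X] M →+* R)) ^ 2 =
        (w.asIdeal ^ 2).comap (e : integralClosure k[X] M →+* R) := by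
      have h2 : ∀ I : Ideal R, I.comap (e : integralClosure k[X] M →+* R) =
          I.map ((e.symm : R ≃ₐ[k[X]] integralClosure k[X] M) : R →+* integralClosure k[X] M) := by
        intro I
        exact (Ideal.map_symm (I := I) (e : integralClosure k[X] M ≃+* R)).symm
      rw [h2, h2, Ideal.map_pow]
    rw [h1]
    exact hmem _ _
  have hal : ∀ P : k[X], e.symm (algebraMap k[X] R P) =
      algebraMap k[X] (integralClosure k[X] M) P := fun P => e.symm.commutes P
  refine ⟨fun Q hQ w hw => ?_, fun P hP w hw hw2 => ?_⟩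
  · have hw' := (hmem _ _).1 hw
    rw [hal] at hw'
    obtain ⟨h1, h2⟩ := h.split Q hQ (w.asIdeal.comap (e : integralClosure k[X] M →+* R))
      inferInstance hw'
    refine ⟨fun h3 => h1 ?_, fun y => ?_⟩
    · have h4 := (hsq w _).1 h3
      rwa [hal] at h4
    · obtain ⟨c, hc⟩ := h2 (e.symm y)
      refine ⟨c, (hmem _ _).2 ?_⟩
      rw [map_sub, hal]
      exact hc
  · refine h.ram P hP ⟨w.asIdeal.comap (e : integralClosure k[X] M →+* R), inferInstance, ?_⟩
    have h4 := (hsq w _).1 hw2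
    rwa [hal] at h4

/-- **Main theorem.** -/
theorem finalF {g : ℕ} (k : Type) [Field k] [Finite k] (hg : 1 ≤ g)
    (hp : ((2 * g + 1).factorial : k) ≠ 0) (K : Type) [Field K] [Algebra k[X] K]
    [IsFractionRing k[X] K] (T : Finset k[X]) (hT : ∀ P ∈ T, P.Monic ∧ Irreducible P)
    (M₀ : Type) [Field M₀] [Algebra K M₀] [Algebra k[X] M₀] [IsScalarTower k[X] K M₀]
    [FiniteDimensional K M₀] [IsGalois K M₀] {n : ℕ} (hn : Module.finrank K M₀ = 2 ^ n) :
    ∃ S : Finset k[X], (∀ Q ∈ S, Q.Monic ∧ Irreducible Q) ∧ Disjoint S T ∧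
    ∃ c : ℝ, 0 < c ∧ ∃ N₀ : ℕ, ∀ N ≥ N₀, {f : k[X][X] | Ht g N f}.Finite ∧
    c * ({f : k[X][X] | Ht g N f}.ncard : ℝ) ≤
      ({f : k[X][X] | Ht g N f ∧ Mini g f ∧ (f.map (algebraMap k[X] K)).Separable ∧
        Prp K T S M₀ f}.ncard : ℝ) := by
  have hfac : ∀ a : ℕ, 0 < a → a ≤ 2 * g + 1 → (a : k) ≠ 0 := by
    intro a ha ha' h0
    apply hp
    obtain ⟨d, hd⟩ : a ∣ (2 * g + 1).factorial := Nat.dvd_factorial ha ha'
    rw [hd, Nat.cast_mul, h0, zero_mul]
  have h2 : (2 : k) ≠ 0 := by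
    have := hfac 2 (by norm_num) (by omega)
    exact_mod_cast this
  have h6 : (6 : k) ≠ 0 := by
    have h3 := hfac 3 (by norm_num) (by omega)
    have e : (6 : k) = 2 * ((3 : ℕ) : k) := by norm_num
    rw [e]
    exact mul_ne_zero h2 h3
  have hu2 : IsUnit (2 : k[X]) := by
    have h3 : (2 : k[X]) = C 2 := (map_ofNat C 2).symm
    rw [h3]
    exact isUnit_C.2 (IsUnit.mk0 _ h2)
  obtain ⟨γ, m, δ, hG, hdeg⟩ := Pool.Agent.N169.PM.gen k K M₀
  -- the prime divisors of `δ`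
  obtain ⟨T', hT', hδ⟩ : ∃ T : Finset k[X], (∀ P ∈ T, P.Monic ∧ Irreducible P) ∧
      ∀ P : k[X], P.Monic → Irreducible P → P ∣ δ → P ∈ T := by
    have hf : {P : k[X] | P.Monic ∧ Irreducible P ∧ P ∣ δ}.Finite := by
      refine (N530.PP.fin_nd δ.natDegree).subset ?_
      rintro P ⟨-, -, h⟩
      exact natDegree_le_of_dvd h hG.ne
    refine ⟨hf.toFinset, fun P hP => ?_, fun P h1 h2 h3 => ?_⟩
    · have := hf.mem_toFinset.1 hP
      exact ⟨this.1, this.2.1⟩
    · exact hf.mem_toFinset.2 ⟨h1, h2, h3⟩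
  have hTT : ∀ P ∈ T ∪ T', P.Monic ∧ Irreducible P := fun P hP =>
    (Finset.mem_union.1 hP).elim (hT P) (hT' P)
  obtain ⟨S, hS, hdis, c, hc, N₀, hN₀⟩ := mainI N874.JM.parts N615.JM.famt N874.JM.bad
    N738.PJ.gr N615.JM.tch k hg hp K (T ∪ T') hTT (fun Q => SplitMod Q m) (by
      intro a
      obtain ⟨S, s, hS, hcard, hdis, hsp⟩ := N2.PM.spl k K M₀ γ m δ h6 hG hdeg (T ∪ T') a
      exact ⟨S, fun Q hQ => ⟨(hS Q hQ).1, (hS Q hQ).2.1⟩, hcard, hdis, hsp⟩)
  refine ⟨S, fun Q hQ => ⟨(hS Q hQ).1, (hS Q hQ).2.1⟩,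
    Finset.disjoint_of_subset_right Finset.subset_union_left hdis, c, hc, N₀, fun N hN => ?_⟩
  obtain ⟨h1, h3⟩ := hN₀ N hN
  refine ⟨h1, h3.trans ?_⟩
  have hsub : {f : k[X][X] | Ht g N f ∧ Mini g f ∧ (f.map (algebraMap k[X] K)).Separable ∧
      Irreducible (f.map (algebraMap k[X] K)) ∧
      (∀ P ∈ T ∪ T', Irreducible (f.map (Ideal.Quotient.mk (Ideal.span {P})))) ∧
      Pool.Agent.N874.TW.Uni K S f f ∧ (IrrSet f).Infinite} ⊆
      {f : k[X][X] | Ht g N f ∧ Mini g f ∧ (f.map (algebraMap k[X] K)).Separable ∧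
        Prp K T S M₀ f} := by
    rintro f ⟨a1, a2, a3, a4, a5, a6, a7⟩
    refine ⟨a1, a2, a3, a4, fun P hP => a5 P (Finset.mem_union_left _ hP), ?_, ?_, ?_, ?_⟩
    · exact base_class hn hG irrMod_assoc (fun Q hQ => ⟨(hS Q hQ).1, (hS Q hQ).2.1⟩)
        (Finset.disjoint_of_subset_right Finset.subset_union_right hdis) hδ
        (fun Q hQ => (hS Q hQ).2.2) (fun P hP => a5 P (Finset.mem_union_right _ hP))
    · intro M₁ M₂ N _ _ _ _ _ _ _ _ _ _ _ _ _ _ _ _ hgn b1 b2
      exact Cls.comp (finRes_poly k) (fun Q hQ => (hS Q hQ).2.1) hgn b1 b2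
    · obtain ⟨Y, hYZ, hYi, hY⟩ := many h2 S (fun Q hQ => ⟨(hS Q hQ).1, (hS Q hQ).2.1⟩)
        (Z := IrrSet f) (fun P hP => ⟨hP.1, hP.2.1⟩) a7
      refine ⟨Y, hYi, fun P hP => ⟨(hYZ hP).1, (hYZ hP).2.1⟩, fun A hA hev M _ _ _ _ r hr hgr => ?_⟩
      have hA0 : (∏ P ∈ A, P) ≠ 0 := by
        rw [Finset.prod_ne_zero_iff]
        exact fun P hP => (hYZ (hA hP)).2.1.ne_zero
      refine quad_class (finRes_poly k) hu2 hA0 hr hgr (fun Q hQ => (hS Q hQ).2.1)
        (fun Q hQ => hY A hA hev Q hQ) fun P hP hPA => ?_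
      obtain ⟨P', hP', hd⟩ := (hP.prime.dvd_finset_prod_iff _).1 hPA
      have ha : Associated P P' := hP.associated_of_dvd (hYZ (hA hP')).2.1 hd
      exact irrMod_assoc _ _ ha.symm (hYZ (hA hP')).2.2
    · intro M _ _ _ _ _ _ R _ _ _ _ _ _ _ hcl
      obtain ⟨n', hn'⟩ := hcl.degree
      obtain ⟨c1, c2⟩ := cls_down (R := R) hcl
      have hsel : Pool.Agent.N874.JM.SelF R (f.map (algebraMap k[X] M)) := by
        refine a6 M R n' hn' (fun Q hQS w hw => ?_) (fun P hPm hPi hram => ?_)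
        · refine ⟨(Pool.Agent.N874.TW.val_iff Q w hw).2 (c1 Q hQS w hw).1, fun y => ?_⟩
          obtain ⟨y, rfl⟩ := Ideal.Quotient.mk_surjective y
          obtain ⟨b, hb⟩ := (c1 Q hQS w hw).2 y
          exact ⟨b, (Ideal.Quotient.eq.2 hb).symm⟩
        · obtain ⟨w, hw, hne⟩ := hram
          apply c2 P hPi w hw
          by_contra h
          exact hne ((Pool.Agent.N874.TW.val_iff P w hw).2 h)
      obtain ⟨h4, h5⟩ := Pool.Agent.N874.JM.genuine K M R hn' h2 a1.mon
        (by rw [a1.deg]; exact odd_two_mul_add_one g) a3 a4 hsel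
      exact ⟨Pool.Agent.N874.Jac.div_of _ h4, Pool.Agent.N874.Jac.sha_of _ R h5⟩
  have hfin : {f : k[X][X] | Ht g N f ∧ Mini g f ∧ (f.map (algebraMap k[X] K)).Separable ∧
        Prp K T S M₀ f}.Finite := h1.subset fun f hf => hf.1
  exact_mod_cast Set.ncard_le_ncard hsub hfin

end Pool.Agent.U693.FF
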