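import Pool.Agent.U693.FF.Che

/-!
# Irreducible specialisations of polynomials over rational function fields, II
-/

set_option autoImplicit false
set_option linter.all false

open Polynomial Pool.Agent.H470

namespace Pool.Agent.U693.FF

/-- `σ` has only one orbit -/
def Trans {n : ℕ} (σ : Equiv.Perm (Fin n)) : Prop :=
  ∀ J : Finset (Fin n), J.Nonempty → (∀ j ∈ J, σ j ∈ J) → J = Finset.univ

section
variable {F k : Type*} [Field F] [Finite F] [Field k] [IsAlgClosed k] [Algebra F k]

theorem deg_ge {n : ℕ} {η : Fin n → k} (hinj : Function.Injective η) {a : F[X]} (ha : a.Monic)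
    (h : ∀ j, (a.map (algebraMap F k)).eval (η j) = 0) : n ≤ a.natDegree := by
  classical
  have h1 : (Finset.univ.image η).card ≤ (a.map (algebraMap F k)).natDegree := by
    apply Polynomial.card_le_degree_of_subset_roots
    intro x hx
    rw [Finset.mem_val, Finset.mem_image] at hx
    obtain ⟨j, -, rfl⟩ := hx
    exact (mem_roots (ha.map _).ne_zero).2 (h j)
  rwa [Finset.card_image_of_injective _ hinj, Finset.card_univ, Fintype.card_fin,
    ha.natDegree_map] at h1

theorem irr_of_trans {n : ℕ} (hn : 0 < n) (P : F[X]) (η : Fin n → k)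
    (hP : P.map (algebraMap F k) = ∏ j, (X - C (η j))) (hsep : P.Separable)
    (σ : Equiv.Perm (Fin n)) (hσ : ∀ j, η (σ j) = fr F k (η j)) (hT : Trans σ) :
    Irreducible P := by
  classical
  have hinj : Function.Injective η := by
    have h1 : (∏ j, (X - C (η j))).Separable := by rw [← hP]; exact hsep.map
    exact separable_prod_X_sub_C_iff.1 h1
  have hm : P.Monic := monic_of_injective (algebraMap F k).injective (by
    rw [hP]
    exact monic_prod_of_monic _ _ fun j _ => monic_X_sub_C _)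
  have hd : P.natDegree = n := by
    rw [← hm.natDegree_map (algebraMap F k), hP,
      natDegree_prod_of_monic _ _ fun j _ => monic_X_sub_C _]
    simp
  rw [hm.irreducible_iff_natDegree]
  refine ⟨?_, fun a b ha hb hab => ?_⟩
  · rintro rfl
    rw [natDegree_one] at hd
    omega
  have hab0 : ∀ j, (a.map (algebraMap F k)).eval (η j) = 0 ∨
      (b.map (algebraMap F k)).eval (η j) = 0 := by
    intro j
    have h1 : (P.map (algebraMap F k)).eval (η j) = 0 := by
      rw [hP, eval_prod]
      exact Finset.prod_eq_zero (Finset.mem_univ j) (by simp)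
    rw [← hab, Polynomial.map_mul, eval_mul, mul_eq_zero] at h1
    exact h1
  have hdeg : a.natDegree + b.natDegree = n := by
    rw [← ha.natDegree_mul hb, hab, hd]
  set J : Finset (Fin n) := Finset.univ.filter fun j => (a.map (algebraMap F k)).eval (η j) = 0
    with hJ
  by_cases hJe : J.Nonempty
  · have hJu := hT J hJe (by
      intro j hj
      rw [hJ, Finset.mem_filter] at hj ⊢
      refine ⟨Finset.mem_univ _, ?_⟩
      have e : a.map (algebraMap F k) = (a.map (algebraMap F k)).map (fr F k) := by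
        rw [Polynomial.map_map, fr_comp]
      rw [hσ, e, eval_map_apply, hj.2, map_zero])
    have h2 : n ≤ a.natDegree := deg_ge hinj ha fun j => by
      have : j ∈ J := hJu ▸ Finset.mem_univ j
      exact (Finset.mem_filter.1 this).2
    right
    omega
  · have h2 : n ≤ b.natDegree := deg_ge hinj hb fun j => (hab0 j).resolve_left fun h =>
      hJe ⟨j, Finset.mem_filter.2 ⟨Finset.mem_univ j, h⟩⟩
    left
    omega

end

/-- **Irreducible specialisations.** -/
theorem lgI (n d0 β : ℕ) (hn : 0 < n) : ∃ C0 : ℕ, ∀ (F : Type) [Field F] [Finite F] (k : Type) [Field k]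
    [IsAlgClosed k] [Algebra F k] [Algebra.IsAlgebraic F k] (M : Type) [Field M]
    [Algebra (RatFunc k) M] [Algebra k[X] M] [IsScalarTower k[X] (RatFunc k) M] (Ψ : M →+* M),
    Semi F (k := k) Ψ → ∀ (g : F[X][X]), g.Monic → g.natDegree = n →
    (∀ i, (g.coeff i).natDegree ≤ d0) → ∀ (y : Fin n → M), Function.Injective y →
    (∀ j, aeval (y j) (g.map (mapRingHom (algebraMap F k))) = 0) →
    (∀ σ : Equiv.Perm (Fin n), (∀ j, Ψ (y j) = y (σ j)) → Trans σ) →
    ∀ (B : Finset F), B.card ≤ β →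
    C0 < Nat.card F → ∃ t0 ∉ B, Irreducible (g.map (evalRingHom t0)) := by
  classical
  set d := d0 * n ^ n with hd
  set δ := 2 * n ^ n * (d0 * n ^ n) with hδ
  set W := R410.PW.WC (n ^ n) d δ with hW
  set E := (δ + 2 * n * d0 + β) * n ^ n with hE
  refine ⟨max ((n ^ n) ^ 2) ((W + E + 1) ^ 2), ?_⟩
  intro F _ _ k _ _ _ _ M _ _ _ _ Ψ hΨ g hg hgn hgd y hy hroot hTr Bs hBs hC
  have hq1 : (n ^ n) ^ 2 < Nat.card F := lt_of_le_of_lt (le_max_left _ _) hC
  have hq2 : (W + E + 1) ^ 2 < Nat.card F := lt_of_le_of_lt (le_max_right _ _) hC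
  obtain ⟨σ, f0, A, B, Ag, Bg, D, Dg, hσ, hf0m, hf0pos, hf0n, hf0c, hD, hD0, hDd, hDg0, hDgd, hirr,
    hspec⟩ := curve2 hΨ hn g hg hgn d0 hgd y hy hroot hq1
  have hweil := R410.PW.weil (F := F) k hf0m hf0pos hD hD0 hDd hf0c hirr
  set Bad : Finset F := D.roots.toFinset ∪ Dg.roots.toFinset ∪ Bs with hBad
  have hBadc : Bad.card ≤ δ + 2 * n * d0 + β := by
    refine (Finset.card_union_le _ _).trans (add_le_add ((Finset.card_union_le _ _).trans ?_) hBs)
    refine add_le_add ((Multiset.toFinset_card_le _).trans ((card_roots' _).trans hDd))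
      ((Multiset.toFinset_card_le _).trans ((card_roots' _).trans hDgd))
  by_contra hcon
  push Not at hcon
  have hall : {z : F × F | evalEval z.1 z.2 f0 = 0} ⊆
      {z : F × F | evalEval z.1 z.2 f0 = 0 ∧ z.1 ∈ Bad} := by
    rintro ⟨t, θ⟩ hz
    refine ⟨hz, ?_⟩
    by_contra hnb
    simp only [hBad, Finset.mem_union, Multiset.mem_toFinset, not_or] at hnb
    obtain ⟨⟨h1, h2⟩, h3⟩ := hnb
    rw [mem_roots hD0, IsRoot.def] at h1
    rw [mem_roots hDg0, IsRoot.def] at h2
    obtain ⟨η, e1, e2, e3⟩ := hspec t θ hz h1 h2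
    exact hcon t h3 (irr_of_trans hn _ η e1 e2 σ e3 (hTr σ hσ))
  have hle : {z : F × F | evalEval z.1 z.2 f0 = 0}.ncard ≤ E := by
    refine (Set.ncard_le_ncard hall (Set.toFinite _)).trans ((card_points_le f0 hf0m Bad).trans ?_)
    exact Nat.mul_le_mul hBadc hf0n
  have hWle : R410.PW.WC f0.natDegree d δ ≤ W := WC_mono hf0n
  have h1 := (abs_le.1 hweil).1
  set q : ℝ := (Nat.card F : ℝ) with hq
  have h2 : ((W : ℝ) + E + 1) ^ 2 < q := by
    rw [hq]
    exact_mod_cast hq2
  have h3 : (W : ℝ) + E + 1 < √q := by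
    apply Real.lt_sqrt_of_sq_lt h2
  have h4 : √q * √q = q := Real.mul_self_sqrt (by positivity)
  have h5 : ((R410.PW.WC f0.natDegree d δ : ℕ) : ℝ) ≤ (W : ℝ) := by exact_mod_cast hWle
  have h6 : (({z : F × F | evalEval z.1 z.2 f0 = 0}.ncard : ℕ) : ℝ) ≤ (E : ℝ) := by exact_mod_cast hle
  have h7 : 0 ≤ √q := Real.sqrt_nonneg q
  have h8 : (0 : ℝ) ≤ (W : ℝ) := by positivity
  have h9 : (0 : ℝ) ≤ (E : ℝ) := by positivity
  nlinarith [mul_le_mul_of_nonneg_right h5 h7, mul_lt_mul_of_pos_right h3 (show (0:ℝ) < √q by linarith)]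

end Pool.Agent.U693.FF
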