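import Mathlib

/-!
# Polynomials over finite fields: elementary lemmas
-/

set_option autoImplicit false
set_option linter.all false

open Polynomial

namespace Pool.Agent.U693.FF

theorem irr_sc {F : Type} [Field F] {p : F[X]} (hp : p ≠ 0) {a : F}
    (h : Irreducible (p.scaleRoots a)) : Irreducible p := by
  have hu : ∀ q : F[X], q ≠ 0 → (IsUnit q ↔ IsUnit (q.scaleRoots a)) := by
    intro q hq
    rw [isUnit_iff_degree_eq_zero, isUnit_iff_degree_eq_zero, degree_scaleRoots]
  refine ⟨fun h1 => h.not_isUnit ((hu p hp).1 h1), fun b c hbc => ?_⟩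
  have h1 : p.scaleRoots a = b.scaleRoots a * c.scaleRoots a := by
    rw [hbc, mul_scaleRoots_of_noZeroDivisors]
  have hb : b ≠ 0 := by
    rintro rfl
    rw [zero_mul] at hbc
    exact hp hbc
  have hc : c ≠ 0 := by
    rintro rfl
    rw [mul_zero] at hbc
    exact hp hbc
  rcases h.isUnit_or_isUnit h1 with h2 | h2
  · exact Or.inl ((hu b hb).2 h2)
  · exact Or.inr ((hu c hc).2 h2)

/-- the polynomial near infinity -/
noncomputable def rev {κ : Type} [Field κ] (d a : ℕ) (f : κ[X][X]) : κ[X][X] :=
  ∑ j ∈ Finset.range (d + 1), C (reflect (a * (d - j)) (f.coeff j)) * X ^ j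

theorem rev_coeff {κ : Type} [Field κ] (d a : ℕ) (f : κ[X][X]) (j : ℕ) :
    (rev d a f).coeff j = if j ≤ d then reflect (a * (d - j)) (f.coeff j) else 0 := by
  unfold rev
  rw [finset_sum_coeff]
  simp only [coeff_C_mul, coeff_X_pow, mul_ite, mul_one, mul_zero]
  rw [Finset.sum_ite_eq (Finset.range (d + 1)) j]
  simp only [Finset.mem_range, Nat.lt_succ_iff]

theorem rev_top {κ : Type} [Field κ] {d a : ℕ} {f : κ[X][X]} (hf : f.Monic)
    (hd : f.natDegree = d) : (rev d a f).coeff d = 1 := by
  rw [rev_coeff, if_pos le_rfl, Nat.sub_self, mul_zero, ← hd, hf.coeff_natDegree, reflect_one,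
    pow_zero]

theorem rev_le {κ : Type} [Field κ] {d a : ℕ} {f : κ[X][X]} : (rev d a f).natDegree ≤ d := by
  rw [natDegree_le_iff_coeff_eq_zero]
  intro j hj
  rw [rev_coeff, if_neg (by omega)]

theorem rev_monic {κ : Type} [Field κ] {d a : ℕ} {f : κ[X][X]} (hf : f.Monic)
    (hd : f.natDegree = d) : (rev d a f).Monic :=
  monic_of_natDegree_le_of_coeff_eq_one d rev_le (rev_top hf hd)

theorem rev_deg {κ : Type} [Field κ] {d a : ℕ} {f : κ[X][X]} (hf : f.Monic)
    (hd : f.natDegree = d) : (rev d a f).natDegree = d :=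
  natDegree_eq_of_le_of_coeff_ne_zero rev_le (by rw [rev_top hf hd]; exact one_ne_zero)

theorem rev_ht {κ : Type} [Field κ] {d a : ℕ} {f : κ[X][X]} (hf : f.Monic) (hd : f.natDegree = d)
    (ha : ∀ j < d, (f.coeff j).natDegree ≤ a * (d - j)) (j : ℕ) :
    ((rev d a f).coeff j).natDegree ≤ a * d := by
  rw [rev_coeff]
  split_ifs with h
  · refine natDegree_reflect_le.trans (max_le (Nat.mul_le_mul_left _ (Nat.sub_le _ _)) ?_)
    rcases h.lt_or_eq with h1 | h1
    · exact (ha j h1).trans (Nat.mul_le_mul_left _ (Nat.sub_le _ _))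
    · rw [h1, ← hd, hf.coeff_natDegree, natDegree_one]
      exact Nat.zero_le _
  · rw [natDegree_zero]
    exact Nat.zero_le _

/-- the constant coefficients -/
theorem rev_zero {κ : Type} [Field κ] {d a : ℕ} {f : κ[X][X]} (hf : f.Monic)
    (hd : f.natDegree = d) {r : κ[X]} (hr : r.Monic) (hrd : r.natDegree = d)
    (hfr : ∀ j < d, (f.coeff j).coeff (a * (d - j)) = r.coeff j) (j : ℕ) :
    ((rev d a f).coeff j).coeff 0 = r.coeff j := by
  rw [rev_coeff]
  split_ifs with h
  · rw [coeff_reflect, revAt_zero]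
    rcases h.lt_or_eq with h1 | h1
    · exact hfr j h1
    · rw [h1, Nat.sub_self, mul_zero]
      conv_lhs => rw [← hd, hf.coeff_natDegree]
      conv_rhs => rw [← hrd, hr.coeff_natDegree]
      exact coeff_one_zero
  · rw [coeff_zero, coeff_eq_zero_of_natDegree_lt (by omega)]

/-- special values -/
theorem rev_eval {κ F : Type} [Field κ] [Field F] (φ : κ →+* F) {d a : ℕ} {f : κ[X][X]}
    (hf : f.Monic) (hd : f.natDegree = d) (ha : ∀ j < d, (f.coeff j).natDegree ≤ a * (d - j))
    {t : F} (ht : t ≠ 0) :
    ((rev d a f).map (mapRingHom φ)).map (evalRingHom t) =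
      (f.map (eval₂RingHom φ t⁻¹)).scaleRoots (t ^ a) := by
  have hm : (f.map (eval₂RingHom φ t⁻¹)).natDegree = d := by
    rw [hf.natDegree_map, hd]
  ext j
  rw [coeff_scaleRoots, hm, coeff_map, coeff_map, coeff_map, rev_coeff]
  split_ifs with h
  · have h1 : (f.coeff j).natDegree ≤ a * (d - j) := by
      rcases h.lt_or_eq with h1 | h1
      · exact ha j h1
      · rw [h1, ← hd, hf.coeff_natDegree, natDegree_one]
        exact Nat.zero_le _
    letI : Invertible t⁻¹ := invertibleOfNonzero (inv_ne_zero ht)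
    have h2 := eval₂_reflect_mul_pow φ t⁻¹ (a * (d - j)) (f.coeff j) h1
    rw [invOf_eq_inv, inv_inv] at h2
    rw [coe_mapRingHom, coe_evalRingHom, eval_map, coe_eval₂RingHom, ← h2, ← pow_mul, mul_assoc,
      ← mul_pow, inv_mul_cancel₀ ht, one_pow, mul_one]
  · rw [map_zero, map_zero, coeff_eq_zero_of_natDegree_lt (show f.natDegree < j by omega), map_zero,
      zero_mul]

/-- Irreducibility modulo the minimal polynomial. -/
theorem irr_quot {κ F : Type} [Field κ] [Field F] [Algebra κ F] {f : κ[X][X]} (hf : f.Monic)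
    (τ : F) (hτ : IsIntegral κ τ)
    (h : Irreducible (f.map (eval₂RingHom (algebraMap κ F) τ))) :
    Irreducible (f.map (Ideal.Quotient.mk (Ideal.span {minpoly κ τ}))) := by
  haveI : (Ideal.span {minpoly κ τ}).IsPrime :=
    (Ideal.span_singleton_prime (minpoly.ne_zero hτ)).2 (minpoly.prime hτ)
  have h0 : ∀ p ∈ Ideal.span {minpoly κ τ}, eval₂RingHom (algebraMap κ F) τ p = 0 := by
    intro p hp
    obtain ⟨q, rfl⟩ := Ideal.mem_span_singleton.1 hp
    rw [map_mul]
    have : eval₂RingHom (algebraMap κ F) τ (minpoly κ τ) = 0 := minpoly.aeval κ τ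
    rw [this, zero_mul]
  refine Monic.irreducible_of_irreducible_map
    (Ideal.Quotient.lift (Ideal.span {minpoly κ τ}) (eval₂RingHom (algebraMap κ F) τ) h0) _
    (hf.map _) ?_
  rw [Polynomial.map_map]
  exact h

/-- Irreducible polynomials over extensions of prime degree. -/
theorem irr_ext {κ F : Type} [Field κ] [Finite κ] [Field F] [Algebra κ F] [FiniteDimensional κ F]
    {r : κ[X]} (hr : r.Monic) (hi : Irreducible r)
    (hc : Nat.Coprime r.natDegree (Module.finrank κ F)) :
    Irreducible (r.map (algebraMap κ F)) := by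
  have hd0 : 0 < r.natDegree := hi.natDegree_pos
  obtain ⟨α, hα⟩ := IsAlgClosed.exists_aeval_eq_zero (AlgebraicClosure F)
    (r.map (algebraMap κ F)) (by
      rw [degree_map]
      exact (degree_pos_of_irreducible hi).ne')
  have hint : IsIntegral F α := ⟨r.map (algebraMap κ F), hr.map _, hα⟩
  set L := IntermediateField.adjoin F {α} with hL
  haveI : FiniteDimensional F L := IntermediateField.adjoin.finiteDimensional hint
  haveI : FiniteDimensional κ L := FiniteDimensional.trans κ F L
  have h1 : Module.finrank F L = (minpoly F α).natDegree := IntermediateField.adjoin.finrank hint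
  have h2 : Module.finrank κ F * Module.finrank F L = Module.finrank κ L :=
    Module.finrank_mul_finrank κ F L
  have h3 : r.natDegree ∣ Module.finrank κ L := by
    have h4 : aeval (IntermediateField.AdjoinSimple.gen F α) (r.map (algebraMap κ F)) = 0 := by
      apply (algebraMap L (AlgebraicClosure F)).injective
      rw [map_zero, ← aeval_algebraMap_apply, IntermediateField.AdjoinSimple.algebraMap_gen]
      exact hα
    rw [aeval_map_algebraMap] at h4
    rw [minpoly.eq_of_irreducible_of_monic hi h4 hr]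
    exact minpoly.degree_dvd (Algebra.IsIntegral.isIntegral _)
  rw [← h2] at h3
  have h4 : r.natDegree ∣ Module.finrank F L := hc.dvd_of_dvd_mul_left h3
  have h5 : minpoly F α ∣ r.map (algebraMap κ F) := minpoly.dvd F α hα
  have h6 : (r.map (algebraMap κ F)).natDegree ≤ (minpoly F α).natDegree := by
    rw [hr.natDegree_map, ← h1]
    exact Nat.le_of_dvd Module.finrank_pos h4
  have h7 := eq_of_monic_of_dvd_of_natDegree_le (minpoly.monic hint) (hr.map _) h5 h6
  rw [h7]
  exact minpoly.irreducible hint

/-- The zeros in an algebraically closed field. -/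
theorem exists_roots {F k : Type} [Field F] [Finite F] [Field k] [IsAlgClosed k] [Algebra F k]
    {P : F[X]} (hP : P.Monic) (hi : Irreducible P) {n : ℕ} (hn : P.natDegree = n) :
    ∃ ρ : Fin n → k, Function.Injective ρ ∧ ∀ j, (P.map (algebraMap F k)).eval (ρ j) = 0 := by
  classical
  have hsep : (P.map (algebraMap F k)).Separable := (PerfectField.separable_of_irreducible hi).map
  have hc : (P.map (algebraMap F k)).roots.toFinset.card = n := by
    rw [Multiset.toFinset_card_of_nodup (nodup_roots hsep),
      splits_iff_card_roots.1 (IsAlgClosed.splits _), hP.natDegree_map, hn]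
  let e := (Finset.equivFinOfCardEq hc).symm
  refine ⟨fun j => (e j : k), fun i j h => e.injective (Subtype.ext h), fun j => ?_⟩
  have h1 := (e j).2
  rw [Multiset.mem_toFinset, mem_roots (hP.map _).ne_zero] at h1
  exact h1

end Pool.Agent.U693.FF
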