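import Pool.Agent.U693.FF.Che2
import Pool.Agent.U693.FF.Inf0

/-!
# A polynomial over `κ[t]` which is irreducible at infinity is irreducible modulo infinitely many primes
-/

set_option autoImplicit false
set_option linter.all false

open Polynomial Pool.Agent.H470

namespace Pool.Agent.U693.FF

section
variable {F k : Type} [Field F] [Finite F] [Field k] [IsAlgClosed k] [Algebra F k]

/-- The Frobenius automorphism permutes the zeros of an irreducible polynomial transitively. -/
theorem trans_of_irr {n : ℕ} {R : F[X]} (hR : R.Monic) (hi : Irreducible R) (hn : R.natDegree = n)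
    {ρ : Fin n → k} (hinj : Function.Injective ρ)
    (h0 : ∀ j, (R.map (algebraMap F k)).eval (ρ j) = 0)
    (σ : Equiv.Perm (Fin n)) (hσ : ∀ j, fr F k (ρ j) = ρ (σ j)) : Trans σ := by
  classical
  intro J hJ hs
  set a : k[X] := ∏ j ∈ J, (X - C (ρ j)) with ha
  have ham : a.Monic := monic_prod_of_monic _ _ fun j _ => monic_X_sub_C _
  have hJs : J.image σ = J := by
    refine Finset.eq_of_subset_of_card_le ?_ ?_
    · intro x hx
      obtain ⟨j, hj, rfl⟩ := Finset.mem_image.1 hx
      exact hs j hj
    · rw [Finset.card_image_of_injective _ σ.injective]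
  have hfr : a.map (fr F k) = a := by
    rw [ha, Polynomial.map_prod]
    conv_rhs => rw [← hJs, Finset.prod_image fun x _ y _ h => σ.injective h]
    refine Finset.prod_congr rfl fun j _ => ?_
    rw [Polynomial.map_sub, map_X, map_C, hσ]
  obtain ⟨a0, ha0⟩ := descent1 F k a hfr
  have ha0m : a0.Monic := monic_of_injective (algebraMap F k).injective (by rw [ha0]; exact ham)
  have hdvd : a ∣ R.map (algebraMap F k) := by
    rw [ha]
    apply Finset.prod_dvd_of_coprime
    · intro i _ j _ hij
      exact pairwise_coprime_X_sub_C hinj hij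
    · intro j _
      exact dvd_iff_isRoot.2 (h0 j)
  rw [← ha0, Polynomial.map_dvd_map'] at hdvd
  have hdeg : a0.natDegree = J.card := by
    rw [← ha0m.natDegree_map (algebraMap F k), ha0, ha,
      natDegree_prod_of_monic _ _ fun j _ => monic_X_sub_C _]
    simp
  have hnu : ¬ IsUnit a0 := by
    intro hu
    rw [ha0m.isUnit_iff] at hu
    rw [hu, natDegree_one] at hdeg
    exact hJ.card_pos.ne hdeg
  have hass := (hi.dvd_iff.1 hdvd).resolve_left hnu
  have he : R = a0 := eq_of_monic_of_associated hR ha0m hass
  refine Finset.eq_univ_of_card J ?_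
  rw [← hdeg, ← he, hn, Fintype.card_fin]

end

theorem cc_comp {k : Type} [Field k] :
    (PowerSeries.constantCoeff (R := k)).comp ((coeToPowerSeries.ringHom (R := k)).comp
      (compRingHom (X : k[X]))) = evalRingHom 0 := by
  apply Polynomial.ringHom_ext
  · intro c
    simp
  · simp

/-- Irreducible values over a finite field. -/
theorem values (d D β : ℕ) (hd : 0 < d) : ∃ C0 : ℕ, ∀ (F : Type) [Field F] [Finite F],
    C0 < Nat.card F → ∀ (g : F[X][X]) (R : F[X]), g.Monic → g.natDegree = d →
    (∀ i, (g.coeff i).natDegree ≤ D) → R.Monic → Irreducible R → R.natDegree = d →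
    g.map (evalRingHom 0) = R → ∀ B : Finset F, B.card ≤ β →
    ∃ t ∉ B, Irreducible (g.map (evalRingHom t)) := by
  classical
  obtain ⟨C0, hC0⟩ := lgI d D β hd
  refine ⟨C0, ?_⟩
  intro F _ _ hC g R hg hgd hgD hR hRi hRd hgR B hB
  let k := AlgebraicClosure F
  obtain ⟨ρ, hρ, hρ0⟩ := exists_roots (k := k) hR hRi hRd
  set co : k[X] →+* PowerSeries k := (coeToPowerSeries.ringHom (R := k)).comp
    (compRingHom (X : k[X])) with hco
  have hcc : (PowerSeries.constantCoeff (R := k)).comp co = evalRingHom 0 := cc_comp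
  set gk := g.map (mapRingHom (algebraMap F k)) with hgk
  set G := gk.map co with hG
  have hG0 : G.map (PowerSeries.constantCoeff (R := k)) = R.map (algebraMap F k) := by
    rw [hG, Polynomial.map_map, hcc, hgk, Polynomial.map_map, ← hgR, Polynomial.map_map]
    congr 1
    apply Polynomial.ringHom_ext
    · intro c
      simp
    · simp
  have hev : ∀ (P : (PowerSeries k)[X]) (w : PowerSeries k),
      PowerSeries.constantCoeff (P.eval w) =
        (P.map (PowerSeries.constantCoeff (R := k))).eval (PowerSeries.constantCoeff w) := by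
    intro P w
    rw [eval_map_apply]
  have hsep : (R.map (algebraMap F k)).Separable := (PerfectField.separable_of_irreducible hRi).map
  have hw : ∀ j, ∃ w : PowerSeries k, G.eval w = 0 ∧ PowerSeries.constantCoeff w = ρ j := by
    intro j
    refine hensel G (ρ j) ?_ ?_
    · rw [hev, hG0, PowerSeries.constantCoeff_C]
      exact hρ0 j
    · rw [hev, ← derivative_map, hG0, PowerSeries.constantCoeff_C]
      exact hsep.eval₂_derivative_ne_zero (RingHom.id k) (x := ρ j) (by
        rw [eval₂_id]
        exact hρ0 j)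
  choose w hw1 hw2 using hw
  have hTn : 0 < (X : k[X]).natDegree := by
    rw [natDegree_X]
    exact one_pos
  letI algX : Algebra k[X] (PSF k) := (embT (X : k[X])).toAlgebra
  letI algR : Algebra (RatFunc k) (PSF k) :=
    (IsFractionRing.lift (A := k[X]) (K := RatFunc k) (g := embT (X : k[X]))
      (embT_injective hTn)).toAlgebra
  haveI tow : IsScalarTower k[X] (RatFunc k) (PSF k) := by
    apply IsScalarTower.of_algebraMap_eq
    intro p
    show embT X p = IsFractionRing.lift (embT_injective hTn) (algebraMap k[X] (RatFunc k) p)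
    rw [IsFractionRing.lift_algebraMap]
  set Ψ := psfMap (fr F k) with hΨdef
  have hΨ : Semi F (k := k) Ψ := by
    constructor
    · intro x
      show psfMap (fr F k) (embT X (C x)) = embT X (C (fr F k x))
      rw [embT_C, embT_C, psfMap_toPSF, PowerSeries.map_C]
    · show psfMap (fr F k) (embT X X) = embT X X
      rw [embT_X, psfMap_toPSF, coe_X, PowerSeries.map_X]
  refine hC0 F k (PSF k) Ψ hΨ g hg hgd hgD (fun j => toPSF k (w j)) ?_ ?_ ?_ B hB hC
  · intro i j h
    apply hρ
    rw [← hw2, ← hw2, toPSF_injective k h]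
  · intro j
    show eval₂ ((toPSF k).comp co) (toPSF k (w j)) gk = 0
    rw [← hom_eval₂, ← map_zero (toPSF k)]
    congr 1
    rw [← eval_map]
    exact hw1 j
  · intro σ hσ
    refine trans_of_irr hR hRi hRd hρ hρ0 σ fun j => ?_
    have h1 : psfMap (fr F k) (toPSF k (w j)) = toPSF k (w (σ j)) := hσ j
    rw [psfMap_toPSF] at h1
    have h2 := congrArg PowerSeries.constantCoeff (toPSF_injective k h1)
    rw [hw2, ← PowerSeries.coeff_zero_eq_constantCoeff_apply, PowerSeries.coeff_map,
      PowerSeries.coeff_zero_eq_constantCoeff_apply, hw2] at h2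
    exact h2

/-- **A polynomial over `κ[t]` which is irreducible at infinity is irreducible modulo infinitely many
primes.** -/
theorem inf_irr {κ : Type} [Field κ] [Finite κ] {d a : ℕ} (hd : 0 < d) {f : κ[X][X]}
    (hf : f.Monic) (hfd : f.natDegree = d) (ha : ∀ j < d, (f.coeff j).natDegree ≤ a * (d - j))
    {r : κ[X]} (hr : r.Monic) (hrd : r.natDegree = d) (hri : Irreducible r)
    (hfr : ∀ j < d, (f.coeff j).coeff (a * (d - j)) = r.coeff j) :
    {P : κ[X] | P.Monic ∧ Irreducible P ∧
      Irreducible (f.map (Ideal.Quotient.mk (Ideal.span {P})))}.Infinite := by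
  classical
  intro hfin
  set Bad : Finset κ[X] := hfin.toFinset with hBad
  obtain ⟨C0, hC0⟩ := values d (a * d) (∑ P ∈ Bad, P.natDegree + 1) hd
  obtain ⟨p, hp⟩ := CharP.exists κ
  haveI : Fact p.Prime := ⟨CharP.char_is_prime κ p⟩
  set m := d * (C0 + 1) + 1 with hm
  haveI : NeZero m := ⟨by omega⟩
  set F := FiniteField.Extension κ p m with hF
  have hcard : C0 < Nat.card F := by
    rw [hF, FiniteField.natCard_extension]
    have h1 : m < Nat.card κ ^ m := Nat.lt_pow_self Finite.one_lt_card
    have h2 : C0 + 1 ≤ d * (C0 + 1) := Nat.le_mul_of_pos_left _ hd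
    omega
  have hfr' : Module.finrank κ F = m := FiniteField.finrank_extension κ p m
  have hco : Nat.Coprime r.natDegree (Module.finrank κ F) := by
    rw [hrd, hfr', hm]
    have : Nat.Coprime d (1 + d * (C0 + 1)) := by simp
    rwa [add_comm] at this
  have hRi := irr_ext (F := F) hr hri hco
  set B : Finset F := insert 0 ((Bad.biUnion fun P =>
    (P.map (algebraMap κ F)).roots.toFinset).image fun x => x⁻¹) with hB
  have hBc : B.card ≤ ∑ P ∈ Bad, P.natDegree + 1 := by
    refine (Finset.card_insert_le _ _).trans (Nat.add_le_add_right ?_ 1)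
    refine Finset.card_image_le.trans (Finset.card_biUnion_le.trans ?_)
    refine Finset.sum_le_sum fun P _ => ?_
    refine (Multiset.toFinset_card_le _).trans ((card_roots' _).trans ?_)
    exact natDegree_map_le
  obtain ⟨t, htB, hti⟩ := hC0 F hcard ((rev d a f).map (mapRingHom (algebraMap κ F)))
    (r.map (algebraMap κ F)) ((rev_monic hf hfd).map _)
    (by rw [(rev_monic hf hfd).natDegree_map, rev_deg hf hfd])
    (by
      intro i
      rw [coeff_map, coe_mapRingHom]
      exact natDegree_map_le.trans (rev_ht hf hfd ha i))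
    (hr.map _) hRi (by rw [hr.natDegree_map, hrd])
    (by
      ext j
      rw [coeff_map, coeff_map, coe_mapRingHom, coe_evalRingHom, ← coeff_zero_eq_eval_zero,
        coeff_map, coeff_map, rev_zero hf hfd hr hrd hfr])
    B hBc
  have ht0 : t ≠ 0 := by
    rintro rfl
    exact htB (Finset.mem_insert_self _ _)
  have hint : IsIntegral κ t⁻¹ := Algebra.IsIntegral.isIntegral _
  rw [rev_eval (algebraMap κ F) hf hfd ha ht0] at hti
  have h1 := irr_quot hf t⁻¹ hint (irr_sc (hf.map _).ne_zero hti)
  have h2 : minpoly κ t⁻¹ ∈ Bad := by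
    rw [hBad, Set.Finite.mem_toFinset]
    exact ⟨minpoly.monic hint, minpoly.irreducible hint, h1⟩
  apply htB
  refine Finset.mem_insert_of_mem (Finset.mem_image.2 ⟨t⁻¹, ?_, inv_inv t⟩)
  refine Finset.mem_biUnion.2 ⟨_, h2, ?_⟩
  rw [Multiset.mem_toFinset, mem_roots ((minpoly.monic hint).map _).ne_zero, IsRoot.def,
    eval_map_algebraMap]
  exact minpoly.aeval κ t⁻¹

end Pool.Agent.U693.FF
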