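import Pool.Agent.N874.TW.Cnt
import Pool.Agent.U693.FF.Inf

/-!
# A positive proportion of all odd hyperelliptic Jacobians over infinitely many 2-extensions: counting

After `N874/TW/Cnt.lean` (helper874).
-/

set_option autoImplicit false
set_option linter.all false

open Polynomial IsDedekindDomain
open Pool.Agent.N352.PJ
open Pool.Agent.N415.PJMAIN
open Pool.Agent.N874.JM Pool.Agent.N874.TW
open Pool.Agent.N874.PP (nm Ov Ev Sq1 U0)
open scoped Classical IntermediateField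

namespace Pool.Agent.U693.FF

/-- the primes modulo which `f` is irreducible -/
def IrrSet {k : Type} [Field k] (f : k[X][X]) : Set k[X] :=
  {P | P.Monic ∧ Irreducible P ∧ Irreducible (f.map (Ideal.Quotient.mk (Ideal.span {P})))}

theorem irrSet_inf {k : Type} [Field k] [Finite k] {g N : ℕ} {r : k[X]} (hr : GoodR g r)
    {f : k[X][X]} (hf : Ht g (2 * N) f)
    (hi : ∀ j ≤ 2 * g, (f.coeff j).coeff (2 * N * (2 * g + 1 - j)) = r.coeff j) :
    (IrrSet f).Infinite :=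
  inf_irr (d := 2 * g + 1) (a := 2 * N) (by omega) hf.mon hf.deg
    (fun j hj => hf.ht j (by omega)) hr.1 hr.2.2.1 hr.2.1 (fun j hj => hi j (by omega))

theorem irrSet_scale {k : Type} [Field k] [Finite k] {f : k[X][X]} (hf : f.Monic)
    {J : Finset k[X]} (hJ : ∀ Q ∈ J, Q.Monic ∧ Irreducible Q) (h : (IrrSet f).Infinite) :
    (IrrSet (f.scaleRoots (∏ Q ∈ J, Q))).Infinite := by
  refine (h.diff J.finite_toSet).mono ?_
  rintro P ⟨⟨h1, h2, h3⟩, hPJ⟩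
  refine ⟨h1, h2, irr_mod' hf h2 (fun hPD => hPJ ?_) h3⟩
  obtain ⟨Q, hQ, hPQ⟩ := (h2.prime.dvd_finset_prod_iff _).1 hPD
  have : P = Q := eq_of_monic_of_associated h1 (hJ Q hQ).1 (h2.associated_of_dvd (hJ Q hQ).2 hPQ)
  rw [this]
  exact hQ

/-- A positive proportion of all curves, over all `M`. -/
theorem mainI (H : Parts) (hFAMT : S_FAMT) (hBAD : S_BAD) (hGR : S_GR)
    (hTCH : Pool.Agent.N874.JM.S_TCH) {g : ℕ}
    (k : Type) [Field k] [Finite k] (hg : 1 ≤ g) (hp : ((2 * g + 1).factorial : k) ≠ 0)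
    (K : Type) [Field K] [Algebra k[X] K] [IsFractionRing k[X] K] (T : Finset k[X])
    (hT' : ∀ P ∈ T, P.Monic ∧ Irreducible P) (Φ : k[X] → Prop)
    (hEX : ∀ m : ℕ, ∃ S : Finset k[X], (∀ Q ∈ S, Q.Monic ∧ Irreducible Q) ∧ S.card = m ∧
      Disjoint S T ∧ ∀ Q ∈ S, Φ Q) :
    ∃ S : Finset k[X], (∀ Q ∈ S, Q.Monic ∧ Irreducible Q ∧ Φ Q) ∧ Disjoint S T ∧
    ∃ c : ℝ, 0 < c ∧ ∃ N₀ : ℕ, ∀ N ≥ N₀, {f : k[X][X] | Ht g N f}.Finite ∧
    c * ({f : k[X][X] | Ht g N f}.ncard : ℝ) ≤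
      ({f : k[X][X] | Ht g N f ∧ Mini g f ∧ (f.map (algebraMap k[X] K)).Separable ∧
        Irreducible (f.map (algebraMap k[X] K)) ∧
        (∀ P ∈ T, Irreducible (f.map (Ideal.Quotient.mk (Ideal.span {P})))) ∧
        Uni K S f f ∧ (IrrSet f).Infinite}.ncard : ℝ) := by
  have h2 : (2 : k) ≠ 0 := by
    intro h0
    apply hp
    obtain ⟨d, hd⟩ : 2 ∣ (2 * g + 1).factorial := Nat.dvd_factorial (by norm_num) (by omega)
    rw [hd, Nat.cast_mul, Nat.cast_ofNat, h0, zero_mul]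
  obtain ⟨r, hr⟩ := hGR g k hp
  obtain ⟨A, hT⟩ := (hTCH g k hg hp T hT').1
  obtain ⟨S, s, c, hS, hdis, hsp, hc, N₀, hN₀⟩ := good_cardT hFAMT hBAD hg hp h2 hr hT
    Φ (by
      intro a
      obtain ⟨S, hS, hcard, hdis, hsp⟩ := hEX a
      obtain ⟨h, hh⟩ := (hTCH g k hg hp S hS).2
      exact ⟨S, h, hh, hcard, hdis, hsp⟩)
  refine ⟨S, fun Q hQ => ⟨(hS Q hQ).1, (hS Q hQ).2.1, hsp Q hQ⟩, hdis, ?_⟩
  set e : ℕ := (∏ Q ∈ S, Q).natDegree with he
  have hq : (0 : ℝ) < Nat.card k := by exact_mod_cast Nat.card_pos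
  have hq1 : (1 : ℝ) ≤ Nat.card k := by exact_mod_cast Nat.card_pos
  have hS0 : (∏ Q ∈ S, Q) ≠ 0 := by
    rw [Finset.prod_ne_zero_iff]
    exact fun Q hQ => (hS Q hQ).2.1.ne_zero
  refine ⟨c / (2 ^ S.card * (Nat.card k : ℝ) ^ ((e + 1) * dd g + 2 * g)), by positivity,
    2 * N₀ + e, fun M' hM' => ⟨(ht_card g M').1, ?_⟩⟩
  obtain ⟨N, hN, hN1, hN2⟩ : ∃ N, N₀ ≤ N ∧ 2 * N + e ≤ M' ∧ M' ≤ 2 * N + e + 1 :=
    ⟨(M' - e) / 2, by omega, by omega, by omega⟩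
  have hG' := hN₀ N hN
  set Hs := {f : k[X][X] | Ht g M' f ∧ Mini g f ∧ (f.map (algebraMap k[X] K)).Separable ∧
        Irreducible (f.map (algebraMap k[X] K)) ∧
        (∀ P ∈ T, Irreducible (f.map (Ideal.Quotient.mk (Ideal.span {P})))) ∧
        Uni K S f f ∧ (IrrSet f).Infinite} with hH
  set G := {f : k[X][X] | FamT g N r S s T A f ∧ ¬ LBad g N S s f} with hGdef
  have hHf : Hs.Finite := (ht_card g M').1.subset fun f hf => hf.1
  have hGf : G.Finite := (ht_card g (2 * N)).1.subset fun f hf => hf.1.fam.ht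
  have hJ0 : ∀ J ⊆ S, (∏ Q ∈ J, Q) ≠ 0 := by
    intro J hJ
    rw [Finset.prod_ne_zero_iff]
    exact fun Q hQ => (hS Q (hJ hQ)).2.1.ne_zero
  have hJs : ∀ J ⊆ S, Squarefree (∏ Q ∈ J, Q) := by
    intro J hJ
    refine Finset.squarefree_prod_of_pairwise_isCoprime ?_ fun Q hQ => (hS Q (hJ hQ)).2.1.squarefree
    intro Q hQ Q' hQ' hne
    show IsRelPrime Q Q'
    refine IsCoprime.isRelPrime ?_
    rw [(hS Q (hJ hQ)).2.1.coprime_iff_not_dvd]
    intro hd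
    exact hne (eq_of_monic_of_associated (hS Q (hJ hQ)).1 (hS Q' (hJ hQ')).1
      ((hS Q (hJ hQ)).2.1.associated_of_dvd (hS Q' (hJ hQ')).2.1 hd))
  have hcard := card_fib hGf hHf S (fun J f => f.scaleRoots (∏ Q ∈ J, Q)) (by
      intro f hf
      obtain ⟨J, hJ, hsel⟩ := selF H K h2 hg hr hS hf.1.fam hf.2
      have hDle : (∏ Q ∈ J, Q).natDegree ≤ e :=
        natDegree_le_of_dvd (Finset.prod_dvd_prod_of_subset _ _ _ hJ) hS0
      obtain ⟨-, i2, i3⟩ := H.irk g k K f N r (∏ Q ∈ J, Q) hf.1.fam.ht hr hf.1.fam.inf (hJ0 J hJ)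
      refine ⟨J, hJ, ht_scale hf.1.fam.ht (by omega),
        mini_scale hg hf.1.fam.ht.deg hf.1.fam.sq (hJs J hJ),
        (i3 hf.1.fam.sq.ne_zero).2, i2, fun P hP => irr_mod' hf.1.fam.ht.mon (hT P hP).2.1
          (fun hPD => ?_) ?_, uni_self hf.1.fam.ht.mon hsel,
        irrSet_scale hf.1.fam.ht.mon (fun Q hQ => ⟨(hS Q (hJ hQ)).1, (hS Q (hJ hQ)).2.1⟩)
          (irrSet_inf hr hf.1.fam.ht hf.1.fam.inf)⟩
      · obtain ⟨Q, hQ, hPQ⟩ := ((hT P hP).2.1.prime.dvd_finset_prod_iff _).1 hPD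
        have hQS := hS Q (hJ hQ)
        have : P = Q := eq_of_monic_of_associated (hT P hP).1 hQS.1
          ((hT P hP).2.1.associated_of_dvd hQS.2.1 hPQ)
        exact Finset.disjoint_left.1 hdis (hJ hQ) (this ▸ hP)
      · have e : f.map (Ideal.Quotient.mk (Ideal.span {P})) =
            (A P).map (Ideal.Quotient.mk (Ideal.span {P})) := by
          ext j
          rw [coeff_map, coeff_map, ← sub_eq_zero, ← map_sub, Ideal.Quotient.eq_zero_iff_mem,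
            Ideal.mem_span_singleton]
          exact hf.1.con P hP j
        rw [e]
        exact (hT P hP).2.2.2.2.2) (by
      intro J hJ x hx y hy hxy
      exact scale_inj (hJ0 J hJ) (by rw [hx.1.fam.ht.deg, hy.1.fam.ht.deg]) hxy)
  have hcard' : (G.ncard : ℝ) ≤ 2 ^ S.card * Hs.ncard := by exact_mod_cast hcard
  have hM'' : ({f : k[X][X] | Ht g M' f}.ncard : ℝ) ≤
      (Nat.card k : ℝ) ^ (2 * N * dd g) * (Nat.card k : ℝ) ^ ((e + 1) * dd g + 2 * g) := by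
    have h3 : ({f : k[X][X] | Ht g M' f}.ncard : ℝ) ≤
        (Nat.card k : ℝ) ^ (M' * dd g + 2 * g) := by
      exact_mod_cast (ht_card (k := k) g M').2
    refine h3.trans ?_
    rw [← pow_add]
    refine pow_le_pow_right₀ hq1 ?_
    have h4 : M' * dd g ≤ (2 * N + e + 1) * dd g := Nat.mul_le_mul_right _ hN2
    calc M' * dd g + 2 * g ≤ (2 * N + e + 1) * dd g + 2 * g := by omega
      _ = _ := by ring
  have hpow : (0 : ℝ) < (Nat.card k : ℝ) ^ ((e + 1) * dd g + 2 * g) := by positivity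
  calc c / (2 ^ S.card * (Nat.card k : ℝ) ^ ((e + 1) * dd g + 2 * g)) *
        ({f : k[X][X] | Ht g M' f}.ncard : ℝ)
      ≤ c / (2 ^ S.card * (Nat.card k : ℝ) ^ ((e + 1) * dd g + 2 * g)) *
        ((Nat.card k : ℝ) ^ (2 * N * dd g) * (Nat.card k : ℝ) ^ ((e + 1) * dd g + 2 * g)) :=
        mul_le_mul_of_nonneg_left hM'' (by positivity)
    _ = c * (Nat.card k : ℝ) ^ (2 * N * dd g) / 2 ^ S.card := by
        field_simp
    _ ≤ (G.ncard : ℝ) / 2 ^ S.card := by gcongr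
    _ ≤ (2 ^ S.card * Hs.ncard) / 2 ^ S.card := by gcongr
    _ = Hs.ncard := by field_simp

end Pool.Agent.U693.FF
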