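import Pool.Agent.U693.FF.Iner

/-!
# The class is closed under composita
-/

set_option autoImplicit false
set_option linter.all false

open IsDedekindDomain Polynomial
open scoped Pointwise IntermediateField

namespace Pool.Agent.U693.FF

section res

variable {A K M N : Type} [CommRing A] [IsDedekindDomain A] [Field K] [Algebra A K]
  [IsFractionRing A K] [Field M] [Algebra K M] [Algebra A M] [IsScalarTower A K M]
  [FiniteDimensional K M] [IsGalois K M] [Field N] [Algebra K N] [Algebra A N]
  [IsScalarTower A K N] [FiniteDimensional K N] [IsGalois K N] [Algebra M N] [IsScalarTower K M N]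

variable (K) in
include K in
theorem up_aux (a : A) : algebraMap M N (algebraMap A M a) = algebraMap A N a := by
  rw [IsScalarTower.algebraMap_apply A K M, ← IsScalarTower.algebraMap_apply K M N,
    ← IsScalarTower.algebraMap_apply A K N]

variable (K) in
include K in
theorem up_int {y : M} (h : IsIntegral A y) : IsIntegral A (algebraMap M N y) := by
  obtain ⟨p, hp, hy⟩ := h
  refine ⟨p, hp, ?_⟩
  have e : (algebraMap A N) = (algebraMap M N).comp (algebraMap A M) := by
    ext a
    exact (up_aux K a).symm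
  rw [e, ← hom_eval₂, hy, map_zero]

variable (K) in
/-- The inclusion of the integral closures. -/
noncomputable def up : integralClosure A M →+* integralClosure A N where
  toFun y := ⟨algebraMap M N y, up_int K y.2⟩
  map_one' := by apply Subtype.ext; simp
  map_mul' x y := by apply Subtype.ext; simp
  map_zero' := by apply Subtype.ext; simp
  map_add' x y := by apply Subtype.ext; simp

theorem up_alg (a : A) : up K (N := N) (algebraMap A (integralClosure A M) a) =
    algebraMap A (integralClosure A N) a := by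
  apply Subtype.ext
  exact up_aux K a

variable (K M) in
/-- The prime below. -/
noncomputable def bel (w : HeightOneSpectrum (integralClosure A N)) :
    HeightOneSpectrum (integralClosure A M) :=
  ⟨w.asIdeal.comap (up K), inferInstance, by
    intro h0
    have h1 := under_ne (A := A) w.ne_bot
    apply h1
    rw [eq_bot_iff]
    intro a ha
    have h2 : algebraMap A (integralClosure A M) a ∈ w.asIdeal.comap (up K) := by
      rw [Ideal.mem_comap, up_alg]
      exact ha
    rw [h0, Ideal.mem_bot] at h2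
    have h3 : algebraMap A M a = 0 := congrArg Subtype.val h2
    rw [IsScalarTower.algebraMap_apply A K M, map_eq_zero] at h3
    exact (IsFractionRing.injective A K) (by rw [h3, map_zero])⟩

theorem mem_bel {w : HeightOneSpectrum (integralClosure A N)} {x : integralClosure A M} :
    x ∈ (bel K M w).asIdeal ↔ up K x ∈ w.asIdeal := Iff.rfl

theorem ov_bel {w : HeightOneSpectrum (integralClosure A N)} {P : A} :
    algebraMap A (integralClosure A M) P ∈ (bel K M w).asIdeal ↔
      algebraMap A (integralClosure A N) P ∈ w.asIdeal := by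
  rw [mem_bel, up_alg]

/-- Elements of the inertia group act trivially on `M`, if `M` is unramified. -/
theorem res_inertia (hA : FinRes A) (w : HeightOneSpectrum (integralClosure A N)) {P : A}
    (hw : algebraMap A (integralClosure A N) P ∈ w.asIdeal)
    (hun : algebraMap A (integralClosure A M) P ∉ (bel K M w).asIdeal ^ 2) (σ : Gal(N/K))
    (hσ : ∀ x : integralClosure A N, σ • x - x ∈ w.asIdeal) (y : M) :
    σ (algebraMap M N y) = algebraMap M N y := by
  set τ : M ≃ₐ[K] M := AlgEquiv.restrictNormal σ M with hτ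
  have hτc : ∀ y : M, algebraMap M N (τ y) = σ (algebraMap M N y) := fun y =>
    AlgEquiv.restrictNormal_commutes σ M y
  have h1 : τ = 1 := by
    refine inertia_of_unr K hA (bel K M w) (ov_bel.2 hw) hun τ fun y => ?_
    have h2 : up K (τ • y - y) = σ • (up K (N := N) y) - up K y := by
      rw [map_sub]
      congr 1
      apply Subtype.ext
      exact hτc y
    rw [mem_bel, h2]
    exact hσ _
  rw [← hτc, h1]
  rfl

/-- A Frobenius automorphism acts trivially on `M`, if the prime number splits completely in `M`. -/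
theorem res_frob (hA : FinRes A) (w : HeightOneSpectrum (integralClosure A N)) {P : A}
    (hw : algebraMap A (integralClosure A N) P ∈ w.asIdeal)
    (hun : algebraMap A (integralClosure A M) P ∉ (bel K M w).asIdeal ^ 2)
    (hres : ∀ x : integralClosure A M, ∃ c : A,
      x - algebraMap A (integralClosure A M) c ∈ (bel K M w).asIdeal) (σ : Gal(N/K))
    (hσ : IsArithFrobAt A σ w.asIdeal) (y : M) :
    σ (algebraMap M N y) = algebraMap M N y := by
  set τ : M ≃ₐ[K] M := AlgEquiv.restrictNormal σ M with hτ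
  have hτc : ∀ y : M, algebraMap M N (τ y) = σ (algebraMap M N y) := fun y =>
    AlgEquiv.restrictNormal_commutes σ M y
  have h1 : τ = 1 := by
    refine inertia_of_unr K hA (bel K M w) (ov_bel.2 hw) hun τ fun y => ?_
    have h2 : up K (τ • y - y) = σ • (up K (N := N) y) - up K y := by
      rw [map_sub]
      congr 1
      apply Subtype.ext
      exact hτc y
    rw [mem_bel, h2]
    set z := up K (N := N) y with hz
    obtain ⟨c, hc⟩ := hres y
    set c' := algebraMap A (integralClosure A N) c with hc'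
    have hzc : z - c' ∈ w.asIdeal := by
      rw [mem_bel, map_sub, up_alg] at hc
      exact hc
    have h3 : σ • z - z ^ Nat.card (A ⧸ w.asIdeal.under A) ∈ w.asIdeal := hσ z
    have h4 : z ^ Nat.card (A ⧸ w.asIdeal.under A) - c' ^ Nat.card (A ⧸ w.asIdeal.under A) ∈
        w.asIdeal := by
      obtain ⟨k, hk⟩ := sub_dvd_pow_sub_pow z c' (Nat.card (A ⧸ w.asIdeal.under A))
      rw [hk]
      exact Ideal.mul_mem_right _ _ hzc
    have h5 : c' ^ Nat.card (A ⧸ w.asIdeal.under A) - c' ∈ w.asIdeal := fermat hA w c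
    have e : σ • z - z = (σ • z - z ^ Nat.card (A ⧸ w.asIdeal.under A)) +
        (z ^ Nat.card (A ⧸ w.asIdeal.under A) - c' ^ Nat.card (A ⧸ w.asIdeal.under A)) +
        (c' ^ Nat.card (A ⧸ w.asIdeal.under A) - c') - (z - c') := by ring
    rw [e]
    exact sub_mem (add_mem (add_mem h3 h4) h5) hzc
  rw [← hτc, h1]
  rfl

end res

/-- The compositum of two normal extensions is normal. -/
theorem normal_gen {K M₁ M₂ N : Type} [Field K] [Field M₁] [Field M₂] [Field N] [Algebra K M₁]
    [Algebra K M₂] [Algebra K N] [Algebra M₁ N] [Algebra M₂ N] [IsScalarTower K M₁ N]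
    [IsScalarTower K M₂ N] [Normal K M₁] [Normal K M₂]
    (h : (IsScalarTower.toAlgHom K M₁ N).fieldRange ⊔ (IsScalarTower.toAlgHom K M₂ N).fieldRange =
      ⊤) : Normal K N := by
  haveI : Normal K (IsScalarTower.toAlgHom K M₁ N).fieldRange :=
    Normal.of_algEquiv (AlgEquiv.ofInjectiveField (IsScalarTower.toAlgHom K M₁ N))
  haveI : Normal K (IsScalarTower.toAlgHom K M₂ N).fieldRange :=
    Normal.of_algEquiv (AlgEquiv.ofInjectiveField (IsScalarTower.toAlgHom K M₂ N))
  have h4 : Normal K ((IsScalarTower.toAlgHom K M₁ N).fieldRange ⊔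
      (IsScalarTower.toAlgHom K M₂ N).fieldRange : IntermediateField K N) := inferInstance
  rw [h] at h4
  haveI := h4
  exact Normal.of_algEquiv (IntermediateField.topEquiv (F := K) (E := N))

/-- The compositum of two Galois extensions is Galois. -/
theorem galois_gen {K M₁ M₂ N : Type} [Field K] [Field M₁] [Field M₂] [Field N] [Algebra K M₁]
    [Algebra K M₂] [Algebra K N] [Algebra M₁ N] [Algebra M₂ N] [IsScalarTower K M₁ N]
    [IsScalarTower K M₂ N] [IsGalois K M₁] [IsGalois K M₂]
    (h : (IsScalarTower.toAlgHom K M₁ N).fieldRange ⊔ (IsScalarTower.toAlgHom K M₂ N).fieldRange =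
      ⊤) : IsGalois K N := by
  haveI : IsGalois K (IsScalarTower.toAlgHom K M₁ N).fieldRange :=
    IsGalois.of_algEquiv (AlgEquiv.ofInjectiveField (IsScalarTower.toAlgHom K M₁ N))
  haveI : IsGalois K (IsScalarTower.toAlgHom K M₂ N).fieldRange :=
    IsGalois.of_algEquiv (AlgEquiv.ofInjectiveField (IsScalarTower.toAlgHom K M₂ N))
  have h4 : IsGalois K ((IsScalarTower.toAlgHom K M₁ N).fieldRange ⊔
      (IsScalarTower.toAlgHom K M₂ N).fieldRange : IntermediateField K N) := inferInstance
  rw [h] at h4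
  haveI := h4
  exact IsGalois.of_algEquiv (IntermediateField.topEquiv (F := K) (E := N))

theorem finite_gen {K M₁ M₂ N : Type} [Field K] [Field M₁] [Field M₂] [Field N] [Algebra K M₁]
    [Algebra K M₂] [Algebra K N] [Algebra M₁ N] [Algebra M₂ N] [IsScalarTower K M₁ N]
    [IsScalarTower K M₂ N] [FiniteDimensional K M₁] [FiniteDimensional K M₂]
    (h : (IsScalarTower.toAlgHom K M₁ N).fieldRange ⊔ (IsScalarTower.toAlgHom K M₂ N).fieldRange =
      ⊤) : FiniteDimensional K N := by
  haveI : FiniteDimensional K (IsScalarTower.toAlgHom K M₁ N).fieldRange :=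
    LinearEquiv.finiteDimensional
      (AlgEquiv.ofInjectiveField (IsScalarTower.toAlgHom K M₁ N)).toLinearEquiv
  haveI : FiniteDimensional K (IsScalarTower.toAlgHom K M₂ N).fieldRange :=
    LinearEquiv.finiteDimensional
      (AlgEquiv.ofInjectiveField (IsScalarTower.toAlgHom K M₂ N)).toLinearEquiv
  have h4 : FiniteDimensional K ((IsScalarTower.toAlgHom K M₁ N).fieldRange ⊔
      (IsScalarTower.toAlgHom K M₂ N).fieldRange : IntermediateField K N) :=
    IntermediateField.finiteDimensional_sup _ _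
  rw [h] at h4
  haveI := h4
  exact LinearEquiv.finiteDimensional (IntermediateField.topEquiv (F := K) (E := N)).toLinearEquiv

/-- The class of extensions of `K`: Galois of 2-power degree, the primes in `S` split completely, and
all ramified primes have the property `good`. -/
structure Cls (A K : Type) [CommRing A] [Field K] [Algebra A K] (S : Finset A) (good : A → Prop)
    (M : Type) [Field M] [Algebra K M] [Algebra A M] : Prop where
  finite : FiniteDimensional K M
  galois : IsGalois K M
  degree : ∃ n : ℕ, Module.finrank K M = 2 ^ n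
  split : ∀ Q ∈ S, ∀ 𝔭 : Ideal (integralClosure A M), 𝔭.IsPrime →
    algebraMap A (integralClosure A M) Q ∈ 𝔭 → algebraMap A (integralClosure A M) Q ∉ 𝔭 ^ 2 ∧
      ∀ x : integralClosure A M, ∃ c : A, x - algebraMap A (integralClosure A M) c ∈ 𝔭
  ram : ∀ P : A, Irreducible P → (∃ 𝔭 : Ideal (integralClosure A M), 𝔭.IsPrime ∧
    algebraMap A (integralClosure A M) P ∈ 𝔭 ^ 2) → good P

section comp

variable {A K M₁ M₂ N : Type} [CommRing A] [IsDomain A] [IsPrincipalIdealRing A] [Field K]
  [Algebra A K]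
  [IsFractionRing A K] [Field M₁] [Algebra K M₁] [Algebra A M₁] [IsScalarTower A K M₁]
  [Field M₂] [Algebra K M₂] [Algebra A M₂] [IsScalarTower A K M₂]
  [Field N] [Algebra K N] [Algebra A N] [IsScalarTower A K N] [Algebra M₁ N] [IsScalarTower K M₁ N]
  [Algebra M₂ N] [IsScalarTower K M₂ N]

/-- `N` is generated by the images of `M₁` and `M₂`. -/
def Gnd (M₁ M₂ N : Type) [Field M₁] [Field M₂] [Field N] [Algebra M₁ N] [Algebra M₂ N] : Prop :=
  ∀ T : Subfield N, (∀ x : M₁, algebraMap M₁ N x ∈ T) → (∀ x : M₂, algebraMap M₂ N x ∈ T) → T = ⊤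

theorem eq_one_of (hg : Gnd M₁ M₂ N) (σ : Gal(N/K))
    (h1 : ∀ y : M₁, σ (algebraMap M₁ N y) = algebraMap M₁ N y)
    (h2 : ∀ y : M₂, σ (algebraMap M₂ N y) = algebraMap M₂ N y) : σ = 1 := by
  have h3 := hg (RingHom.eqLocusField (σ : N ≃+* N).toRingHom (RingHom.id N)) h1 h2
  ext z
  have h4 : z ∈ RingHom.eqLocusField (σ : N ≃+* N).toRingHom (RingHom.id N) := by
    rw [h3]
    trivial
  exact h4

theorem sup_top (hg : Gnd M₁ M₂ N) :
    (IsScalarTower.toAlgHom K M₁ N).fieldRange ⊔ (IsScalarTower.toAlgHom K M₂ N).fieldRange = ⊤ := by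
  have h2 := hg ((IsScalarTower.toAlgHom K M₁ N).fieldRange ⊔
    (IsScalarTower.toAlgHom K M₂ N).fieldRange).toSubfield
    (fun x => (le_sup_left : (IsScalarTower.toAlgHom K M₁ N).fieldRange ≤ _) ⟨x, rfl⟩)
    (fun x => (le_sup_right : (IsScalarTower.toAlgHom K M₂ N).fieldRange ≤ _) ⟨x, rfl⟩)
  rw [eq_top_iff]
  intro x _
  have h3 : x ∈ ((IsScalarTower.toAlgHom K M₁ N).fieldRange ⊔
    (IsScalarTower.toAlgHom K M₂ N).fieldRange).toSubfield := by
    rw [h2]
    trivial
  exact h3

theorem deg_comp [IsGalois K M₁] [IsGalois K M₂] [FiniteDimensional K M₁] [FiniteDimensional K M₂]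
    (hg : Gnd M₁ M₂ N) {n₁ n₂ : ℕ} (h₁ : Module.finrank K M₁ = 2 ^ n₁)
    (h₂ : Module.finrank K M₂ = 2 ^ n₂) : ∃ n : ℕ, Module.finrank K N = 2 ^ n := by
  haveI : IsGalois K N := galois_gen (sup_top hg)
  haveI : FiniteDimensional K N := finite_gen (sup_top hg)
  let φ : Gal(N/K) →* Gal(M₁/K) × Gal(M₂/K) :=
    (AlgEquiv.restrictNormalHom M₁).prod (AlgEquiv.restrictNormalHom M₂)
  have hφ : Function.Injective φ := by
    rw [injective_iff_map_eq_one]
    intro σ hσ
    have a1 : AlgEquiv.restrictNormal σ M₁ = 1 := congrArg Prod.fst hσ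
    have a2 : AlgEquiv.restrictNormal σ M₂ = 1 := congrArg Prod.snd hσ
    refine eq_one_of hg σ (fun y => ?_) (fun y => ?_)
    · rw [← AlgEquiv.restrictNormal_commutes σ M₁ y, a1]
      rfl
    · rw [← AlgEquiv.restrictNormal_commutes σ M₂ y, a2]
      rfl
  have h3 := Subgroup.card_dvd_of_injective φ hφ
  rw [Nat.card_prod, IsGalois.card_aut_eq_finrank, IsGalois.card_aut_eq_finrank,
    IsGalois.card_aut_eq_finrank, h₁, h₂, ← pow_add] at h3
  obtain ⟨n, -, hn⟩ := (Nat.dvd_prime_pow Nat.prime_two).1 h3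
  exact ⟨n, hn⟩

/-- A prime ideal which contains a nonzero element of `A` is a prime of height one. -/
theorem hos {A K M : Type} [CommRing A] [IsDomain A] [Field K] [Algebra A K] [IsFractionRing A K]
    [Field M] [Algebra K M] [Algebra A M] [IsScalarTower A K M]
    {𝔭 : Ideal (integralClosure A M)} (h𝔭 : 𝔭.IsPrime) {P : A} (hP : P ≠ 0)
    (h : algebraMap A (integralClosure A M) P ∈ 𝔭) :
    ∃ w : HeightOneSpectrum (integralClosure A M), w.asIdeal = 𝔭 := by
  refine ⟨⟨𝔭, h𝔭, ?_⟩, rfl⟩
  rintro rfl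
  rw [Ideal.mem_bot] at h
  have h3 : algebraMap A M P = 0 := congrArg Subtype.val h
  rw [IsScalarTower.algebraMap_apply A K M, map_eq_zero] at h3
  exact hP ((IsFractionRing.injective A K) (by rw [h3, map_zero]))

/-- The class is closed under composita. -/
theorem Cls.comp (hA : FinRes A) {S : Finset A} {good : A → Prop} (hS : ∀ Q ∈ S, Irreducible Q)
    (hg : Gnd M₁ M₂ N) (h₁ : Cls A K S good M₁) (h₂ : Cls A K S good M₂) : Cls A K S good N := by
  haveI := h₁.finite
  haveI := h₂.finite
  haveI := h₁.galois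
  haveI := h₂.galois
  haveI : IsGalois K N := galois_gen (sup_top hg)
  haveI : FiniteDimensional K N := finite_gen (sup_top hg)
  obtain ⟨n₁, e₁⟩ := h₁.degree
  obtain ⟨n₂, e₂⟩ := h₂.degree
  have hmax : ∀ P : A, Irreducible P → (Ideal.span {P}).IsMaximal := fun P hP =>
    PrincipalIdealRing.isMaximal_of_irreducible hP
  have hunr : ∀ (P : A), Irreducible P → ∀ w : HeightOneSpectrum (integralClosure A N),
      algebraMap A (integralClosure A N) P ∈ w.asIdeal →
      algebraMap A (integralClosure A M₁) P ∉ (bel K M₁ w).asIdeal ^ 2 →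
      algebraMap A (integralClosure A M₂) P ∉ (bel K M₂ w).asIdeal ^ 2 →
      algebraMap A (integralClosure A N) P ∉ w.asIdeal ^ 2 := by
    intro P hP w hw a1 a2
    refine unr_of_inertia K hA w hP.prime (hmax P hP) hw fun σ hσ => eq_one_of hg σ ?_ ?_
    · exact res_inertia hA w hw a1 σ hσ
    · exact res_inertia hA w hw a2 σ hσ
  refine ⟨inferInstance, inferInstance, deg_comp hg e₁ e₂, fun Q hQ 𝔭 h𝔭 hQ𝔭 => ?_, fun P hP hex => ?_⟩
  · obtain ⟨w, rfl⟩ := hos (K := K) h𝔭 (hS Q hQ).ne_zero hQ𝔭
    obtain ⟨b1, b2⟩ := h₁.split Q hQ (bel K M₁ w).asIdeal (bel K M₁ w).isPrime (ov_bel.2 hQ𝔭)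
    obtain ⟨c1, c2⟩ := h₂.split Q hQ (bel K M₂ w).asIdeal (bel K M₂ w).isPrime (ov_bel.2 hQ𝔭)
    refine ⟨hunr Q (hS Q hQ) w hQ𝔭 b1 c1, ?_⟩
    haveI := galgrp (A := A) (K := K) (M := N)
    haveI : Finite (integralClosure A N ⧸ w.asIdeal) := fin_quot K hA w
    obtain ⟨σ, hσ⟩ := IsArithFrobAt.exists_of_isInvariant A Gal(N/K) w.asIdeal
    have h4 : σ = 1 := eq_one_of hg σ (res_frob hA w hQ𝔭 b1 b2 σ hσ) (res_frob hA w hQ𝔭 c1 c2 σ hσ)
    rw [h4] at hσ
    exact res_of_frob K hA w hσ
  · obtain ⟨𝔭, h𝔭, h2⟩ := hex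
    have h3 := Ideal.pow_le_self two_ne_zero h2
    obtain ⟨w, rfl⟩ := hos (K := K) h𝔭 hP.ne_zero h3
    by_contra hng
    refine hunr P hP w h3 (fun h => hng ?_) (fun h => hng ?_) h2
    · exact h₁.ram P hP ⟨_, (bel K M₁ w).isPrime, h⟩
    · exact h₂.ram P hP ⟨_, (bel K M₂ w).isPrime, h⟩

end comp

end Pool.Agent.U693.FF
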