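import Mathlib

/-!
# Inertia groups and Frobenius elements, in integral closures

`A` is a Dedekind domain with finite residue fields and fraction field `K`, `M / K` is finite Galois.
-/

set_option autoImplicit false
set_option linter.all false

open IsDedekindDomain Polynomial
open scoped Pointwise

namespace Pool.Agent.U693.FF

/-- finite residue fields -/
def FinRes (A : Type) [CommRing A] : Prop := ∀ p : Ideal A, p ≠ ⊥ → Finite (A ⧸ p)

theorem perf {A : Type} [CommRing A] [IsDomain A] (p : Ideal A) [hp : p.IsMaximal]
    (hf : Finite (A ⧸ p)) : PerfectField p.ResidueField := by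
  have hb : Function.Bijective (algebraMap (A ⧸ p) p.ResidueField) :=
    Ideal.bijective_algebraMap_quotient_residueField p
  have : Finite p.ResidueField := Finite.of_surjective _ hb.2
  infer_instance

theorem exp_pow {a : WithZero (Multiplicative ℤ)} {e : ℕ} (h : a ^ e = WithZero.exp (-1 : ℤ)) :
    e = 1 := by
  have ha : a ≠ 0 := by
    rintro rfl
    rcases Nat.eq_zero_or_pos e with rfl | he
    · rw [pow_zero] at h
      have : WithZero.exp (0 : ℤ) = WithZero.exp (-1 : ℤ) := by rw [← h]; rfl
      exact absurd (WithZero.exp_injective this) (by norm_num)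
    · rw [zero_pow he.ne'] at h
      exact WithZero.exp_ne_zero h.symm
  obtain ⟨m, rfl⟩ : ∃ m : ℤ, a = WithZero.exp m := ⟨WithZero.log a, (WithZero.exp_log ha).symm⟩
  rw [← WithZero.exp_nsmul] at h
  have h1 := WithZero.exp_injective h
  rw [nsmul_eq_mul] at h1
  have h2 : (e : ℤ) ∣ 1 := ⟨-m, by linarith⟩
  have h3 : e ∣ 1 := by exact_mod_cast h2
  exact Nat.dvd_one.1 h3

section one

variable {A K M : Type} [CommRing A] [IsDedekindDomain A] [Field K] [Algebra A K]
  [IsFractionRing A K] [Field M] [Algebra K M] [Algebra A M] [IsScalarTower A K M]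
  [FiniteDimensional K M] [IsGalois K M]

/-- Unramified in terms of valuations. -/
theorem val_exp {R : Type} [CommRing R] [IsDedekindDomain R] [Algebra A R] [Algebra R M]
    [IsFractionRing R M] [IsScalarTower A R M]
    (w : HeightOneSpectrum R) {P : A} (hw : algebraMap A R P ∈ w.asIdeal)
    (h3 : algebraMap A R P ∉ w.asIdeal ^ 2) :
    w.valuation M (algebraMap A M P) = WithZero.exp (-1 : ℤ) := by
  rw [IsScalarTower.algebraMap_apply A R M, HeightOneSpectrum.valuation_of_algebraMap]
  have a1 : w.intValuation (algebraMap A R P) ≤ WithZero.exp (-((1 : ℕ) : ℤ)) := by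
    rw [HeightOneSpectrum.intValuation_le_pow_iff_mem, pow_one]
    exact hw
  have a2 : ¬ w.intValuation (algebraMap A R P) ≤ WithZero.exp (-((2 : ℕ) : ℤ)) := by
    rw [HeightOneSpectrum.intValuation_le_pow_iff_mem]
    exact h3
  have h0 : w.intValuation (algebraMap A R P) ≠ 0 := by
    intro h0
    apply a2
    rw [h0]
    exact zero_le'
  rw [← WithZero.exp_log h0] at a1 a2 ⊢
  rw [WithZero.exp_le_exp] at a1 a2
  congr 1
  push_cast at a1 a2
  omega

theorem not_mem_sq {R : Type} [CommRing R] [IsDedekindDomain R] [Algebra A R] [Algebra R M]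
    [IsFractionRing R M] [IsScalarTower A R M]
    (w : HeightOneSpectrum R) {P : A}
    (h : w.valuation M (algebraMap A M P) = WithZero.exp (-1 : ℤ)) :
    algebraMap A R P ∉ w.asIdeal ^ 2 := by
  intro h3
  rw [IsScalarTower.algebraMap_apply A R M, HeightOneSpectrum.valuation_of_algebraMap] at h
  have a2 : w.intValuation (algebraMap A R P) ≤ WithZero.exp (-((2 : ℕ) : ℤ)) := by
    rw [HeightOneSpectrum.intValuation_le_pow_iff_mem]
    exact h3
  rw [h, WithZero.exp_le_exp] at a2
  norm_num at a2

theorem galgrp : IsGaloisGroup Gal(M/K) A (integralClosure A M) := by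
  haveI : IsFractionRing (integralClosure A M) M :=
    integralClosure.isFractionRing_of_finite_extension K M
  haveI : IsDedekindDomain (integralClosure A M) := integralClosure.isDedekindDomain A K M
  exact IsGaloisGroup.of_isFractionRing Gal(M/K) A (integralClosure A M) K M

/-- The prime of `A` below. -/
theorem under_ne {𝔭 : Ideal (integralClosure A M)} (h0 : 𝔭 ≠ ⊥) : 𝔭.under A ≠ ⊥ :=
  fun h => h0 (Ideal.eq_bot_of_comap_eq_bot h)

variable (K) in
include K in
/-- The ramification index is the order of the inertia group. -/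
theorem ram_eq (hA : FinRes A) (w : HeightOneSpectrum (integralClosure A M))
    [IsDedekindDomain (integralClosure A M)] [IsFractionRing (integralClosure A M) M] (x : K) :
    ∃ v : HeightOneSpectrum A, v.asIdeal = w.asIdeal.under A ∧
      v.valuation K x ^ Nat.card (w.asIdeal.inertia Gal(M/K)) = w.valuation M (algebraMap K M x) := by
  haveI := galgrp (A := A) (K := K) (M := M)
  haveI : Module.Finite A (integralClosure A M) := IsIntegralClosure.finite A K M _
  let v : HeightOneSpectrum A := ⟨w.asIdeal.under A, inferInstance, under_ne w.ne_bot⟩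
  have hl : w.asIdeal.LiesOver v.asIdeal := ⟨rfl⟩
  have hmax : v.asIdeal.IsMaximal := v.isMaximal
  have hpf : PerfectField v.asIdeal.ResidueField := perf _ (hA _ v.ne_bot)
  have hinj : Function.Injective (algebraMap A (integralClosure A M)) := by
    have h1 : Function.Injective (algebraMap A M) := by
      rw [IsScalarTower.algebraMap_eq A K M]
      exact (algebraMap K M).injective.comp (IsFractionRing.injective A K)
    rw [IsScalarTower.algebraMap_eq A (integralClosure A M) M, RingHom.coe_comp] at h1
    exact Function.Injective.of_comp h1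
  haveI : FaithfulSMul A (integralClosure A M) := (faithfulSMul_iff_algebraMap_injective _ _).2 hinj
  haveI : Module.IsTorsionFree A (integralClosure A M) := inferInstance
  have h1 := Ideal.card_inertia_eq_ramificationIdxIn (G := Gal(M/K)) v.asIdeal w.asIdeal
  rw [Ideal.ramificationIdxIn_eq_ramificationIdx v.asIdeal w.asIdeal
    Gal(M/K), ← Ideal.ramificationIdx'_eq_ramificationIdx' v.asIdeal
    w.asIdeal (fun h0 => v.ne_bot
      ((Ideal.map_eq_bot_iff_of_injective (FaithfulSMul.algebraMap_injective _ _)).1 h0))] at h1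
  refine ⟨v, rfl, ?_⟩
  rw [h1]
  exact HeightOneSpectrum.valuation_liesOver M v w x

theorem under_eq {w : HeightOneSpectrum (integralClosure A M)} {P : A} (hP : Prime P)
    [IsDedekindDomain (integralClosure A M)] (hspan : (Ideal.span {P}).IsMaximal)
    (hw : algebraMap A (integralClosure A M) P ∈ w.asIdeal) :
    w.asIdeal.under A = Ideal.span {P} := by
  have h1 : Ideal.span {P} ≤ w.asIdeal.under A := by
    rw [Ideal.span_le, Set.singleton_subset_iff]
    exact hw
  exact (hspan.eq_of_le (Ideal.IsPrime.ne_top inferInstance) h1).symm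

theorem val_pr (v : HeightOneSpectrum A) {P : A} (hP : P ≠ 0) (h : v.asIdeal = Ideal.span {P}) :
    v.valuation K (algebraMap A K P) = WithZero.exp (-1 : ℤ) := by
  rw [HeightOneSpectrum.valuation_of_algebraMap]
  exact HeightOneSpectrum.intValuation_singleton v hP h

variable (K) in
include K in
/-- A prime with trivial inertia group is unramified. -/
theorem unr_of_inertia (hA : FinRes A) (w : HeightOneSpectrum (integralClosure A M)) {P : A}
    (hP : Prime P) (hspan : (Ideal.span {P}).IsMaximal)
    (hw : algebraMap A (integralClosure A M) P ∈ w.asIdeal)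
    (h : ∀ σ : Gal(M/K), (∀ x : integralClosure A M, σ • x - x ∈ w.asIdeal) → σ = 1) :
    algebraMap A (integralClosure A M) P ∉ w.asIdeal ^ 2 := by
  haveI : IsFractionRing (integralClosure A M) M :=
    integralClosure.isFractionRing_of_finite_extension K M
  haveI : IsDedekindDomain (integralClosure A M) := integralClosure.isDedekindDomain A K M
  have hI : Nat.card (w.asIdeal.inertia Gal(M/K)) = 1 := by
    rw [Subgroup.card_eq_one, Subgroup.eq_bot_iff_forall]
    intro σ hσ
    exact h σ hσ
  obtain ⟨v, hv, h2⟩ := ram_eq K hA w (algebraMap A K P)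
  rw [hI, pow_one, val_pr v hP.ne_zero (hv.trans (under_eq hP hspan hw)),
    ← IsScalarTower.algebraMap_apply] at h2
  exact not_mem_sq w h2.symm

variable (K) in
include K in
/-- The inertia group of an unramified prime is trivial. -/
theorem inertia_of_unr (hA : FinRes A) (w : HeightOneSpectrum (integralClosure A M)) {P : A}
    (hw : algebraMap A (integralClosure A M) P ∈ w.asIdeal)
    (h2 : algebraMap A (integralClosure A M) P ∉ w.asIdeal ^ 2) (σ : Gal(M/K))
    (hσ : ∀ x : integralClosure A M, σ • x - x ∈ w.asIdeal) : σ = 1 := by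
  haveI : IsFractionRing (integralClosure A M) M :=
    integralClosure.isFractionRing_of_finite_extension K M
  haveI : IsDedekindDomain (integralClosure A M) := integralClosure.isDedekindDomain A K M
  obtain ⟨v, hv, h3⟩ := ram_eq K hA w (algebraMap A K P)
  rw [← IsScalarTower.algebraMap_apply, val_exp w hw h2] at h3
  have h4 := (Subgroup.card_eq_one (H := w.asIdeal.inertia Gal(M/K))).1 (exp_pow h3)
  have h5 : σ ∈ w.asIdeal.inertia Gal(M/K) := hσ
  rw [h4] at h5
  exact Subgroup.mem_bot.1 h5

variable (K) in
include K in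
theorem fin_quot (hA : FinRes A) (w : HeightOneSpectrum (integralClosure A M)) :
    Finite (integralClosure A M ⧸ w.asIdeal) := by
  haveI : Module.Finite A (integralClosure A M) := IsIntegralClosure.finite A K M _
  haveI : Finite (A ⧸ w.asIdeal.under A) := hA _ (under_ne w.ne_bot)
  have : Module.Finite (A ⧸ w.asIdeal.under A) (integralClosure A M ⧸ w.asIdeal) := inferInstance
  exact Module.finite_of_finite (A ⧸ w.asIdeal.under A)

variable (K) in
include K in
/-- A prime with trivial Frobenius automorphism has degree one. -/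
theorem res_of_frob (hA : FinRes A) (w : HeightOneSpectrum (integralClosure A M))
    (h : IsArithFrobAt A (1 : Gal(M/K)) w.asIdeal) (x : integralClosure A M) :
    ∃ c : A, x - algebraMap A (integralClosure A M) c ∈ w.asIdeal := by
  haveI : IsDedekindDomain (integralClosure A M) := integralClosure.isDedekindDomain A K M
  haveI hmax : w.asIdeal.IsMaximal := w.isMaximal
  letI : Field (integralClosure A M ⧸ w.asIdeal) := Ideal.Quotient.field _
  haveI : Finite (integralClosure A M ⧸ w.asIdeal) := fin_quot K hA w
  haveI : Finite (A ⧸ w.asIdeal.under A) := hA _ (under_ne w.ne_bot)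
  haveI : Fintype (integralClosure A M ⧸ w.asIdeal) := Fintype.ofFinite _
  set q := Nat.card (A ⧸ w.asIdeal.under A) with hq
  haveI : Nontrivial (A ⧸ w.asIdeal.under A) :=
    Ideal.Quotient.nontrivial_iff.2 (Ideal.IsPrime.ne_top inferInstance)
  have hq1 : 1 < q := Finite.one_lt_card
  have h1 : ∀ y : integralClosure A M ⧸ w.asIdeal, y ^ q = y := by
    intro y
    obtain ⟨z, rfl⟩ := Ideal.Quotient.mk_surjective y
    have h2 := h z
    rw [← map_pow, eq_comm, Ideal.Quotient.eq]
    exact h2
  have hdeg : (X ^ q - X : (integralClosure A M ⧸ w.asIdeal)[X]).natDegree = q :=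
    FiniteField.X_pow_card_sub_X_natDegree_eq _ hq1
  have hne : (X ^ q - X : (integralClosure A M ⧸ w.asIdeal)[X]) ≠ 0 :=
    FiniteField.X_pow_card_sub_X_ne_zero _ hq1
  have hcard : Nat.card (integralClosure A M ⧸ w.asIdeal) ≤ q := by
    rw [Nat.card_eq_fintype_card, ← Finset.card_univ]
    have h3 : (Finset.univ : Finset (integralClosure A M ⧸ w.asIdeal)).val ⊆
        (X ^ q - X : (integralClosure A M ⧸ w.asIdeal)[X]).roots := by
      intro y _
      rw [mem_roots hne, IsRoot.def, eval_sub, eval_pow, eval_X, h1, sub_self]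
    exact (Polynomial.card_le_degree_of_subset_roots h3).trans_eq hdeg
  have hinj : Function.Injective (algebraMap (A ⧸ w.asIdeal.under A)
      (integralClosure A M ⧸ w.asIdeal)) := Ideal.algebraMap_quotient_injective
  have hbij := Function.Injective.bijective_of_nat_card_le hinj hcard
  obtain ⟨y, hy⟩ := hbij.2 (Ideal.Quotient.mk _ x)
  obtain ⟨c, rfl⟩ := Ideal.Quotient.mk_surjective y
  refine ⟨c, ?_⟩
  rw [← Ideal.Quotient.eq, ← hy]
  change algebraMap (A ⧸ w.asIdeal.under A) (integralClosure A M ⧸ w.asIdeal)
    (Ideal.Quotient.mk _ c) = _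
  rw [Ideal.Quotient.algebraMap_mk_of_liesOver]

/-- Fermat's little theorem. -/
theorem fermat (hA : FinRes A) (w : HeightOneSpectrum (integralClosure A M)) (c : A) :
    (algebraMap A (integralClosure A M) c) ^ Nat.card (A ⧸ w.asIdeal.under A) -
      algebraMap A (integralClosure A M) c ∈ w.asIdeal := by
  haveI : Finite (A ⧸ w.asIdeal.under A) := hA _ (under_ne w.ne_bot)
  haveI : Fintype (A ⧸ w.asIdeal.under A) := Fintype.ofFinite _
  haveI hmax : (w.asIdeal.under A).IsMaximal := by
    have : (w.asIdeal.under A).IsPrime := inferInstance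
    exact this.isMaximal (under_ne w.ne_bot)
  letI : Field (A ⧸ w.asIdeal.under A) := Ideal.Quotient.field _
  have h1 : (Ideal.Quotient.mk (w.asIdeal.under A) c) ^ Nat.card (A ⧸ w.asIdeal.under A) =
      Ideal.Quotient.mk (w.asIdeal.under A) c := by
    rw [Nat.card_eq_fintype_card]
    exact FiniteField.pow_card _
  rw [← map_pow, Ideal.Quotient.eq] at h1
  rw [← map_pow, ← map_sub]
  exact h1

end one

end Pool.Agent.U693.FF
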